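import Pool.Agent.Y679.Jl.Gi

/-! **The invariant as a function of the ratio** (helper679). -/

set_option autoImplicit false

namespace Pool.Agent.Y679.Jl

open Finset Filter Topology MeasureTheory intervalIntegral

/-- the condition `j / 1728 ≤ t` -/
def Cj (t s : ℝ) : Prop := 4 * (1 + s + s ^ 2) ^ 3 ≤ t * (27 * (s * (1 + s)) ^ 2)

/-- the quotient `j / 1728` -/
noncomputable def ps (s : ℝ) : ℝ := 4 * (1 + s + s ^ 2) ^ 3 / (27 * (s * (1 + s)) ^ 2)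

theorem Cj_iff {t s : ℝ} (hs : 0 < s) : Cj t s ↔ ps s ≤ t := by
  unfold Cj ps
  rw [div_le_iff₀ (by positivity)]

theorem ps_ge_one {s : ℝ} (hs : 0 < s) : 1 ≤ ps s := by
  unfold ps
  rw [le_div_iff₀ (by positivity)]
  have : 4 * (1 + s + s ^ 2) ^ 3 - 1 * (27 * (s * (1 + s)) ^ 2) =
      ((s - 1) * (2 * s + 1) * (s + 2)) ^ 2 := by ring
  have h2 : 0 ≤ ((s - 1) * (2 * s + 1) * (s + 2)) ^ 2 := sq_nonneg _
  linarith

theorem ps_one : ps 1 = 1 := by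
  unfold ps
  norm_num

theorem ps_lt {s t : ℝ} (hs : 0 < s) (hst : s < t) (ht : t ≤ 1) : ps t < ps s := by
  obtain ⟨u, hu⟩ : ∃ u : ℝ, u = s + s⁻¹ := ⟨_, rfl⟩
  obtain ⟨v, hv⟩ : ∃ v : ℝ, v = t + t⁻¹ := ⟨_, rfl⟩
  have ht0 : 0 < t := by linarith
  have key : ∀ x : ℝ, 0 < x → ps x = 4 / 27 * ((x + x⁻¹ + 1) ^ 3 / (x + x⁻¹ + 2)) := by
    intro x hx
    have hx' : x + x⁻¹ + 2 = (x + 1) ^ 2 / x := by field_simp; ring
    have hx'' : x + x⁻¹ + 1 = (1 + x + x ^ 2) / x := by field_simp; ring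
    rw [hx', hx'']
    unfold ps
    have : x + 1 ≠ 0 := by positivity
    field_simp
    ring
  have huv : v < u := by
    rw [hu, hv]
    have e : s + s⁻¹ - (t + t⁻¹) = (t - s) * (1 - s * t) / (s * t) := by
      field_simp
      ring
    have h1 : 0 < (t - s) * (1 - s * t) / (s * t) := by
      have : s * t < 1 := by nlinarith
      have h2 : 0 < t - s := by linarith
      have h3 : 0 < 1 - s * t := by linarith
      positivity
    linarith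
  have hv0 : 0 < v := by rw [hv]; positivity
  rw [key s hs, key t ht0, ← hu, ← hv]
  refine mul_lt_mul_of_pos_left ?_ (by norm_num)
  rw [div_lt_div_iff₀ (by linarith) (by linarith)]
  have e : (u + 1) ^ 3 * (v + 2) - (v + 1) ^ 3 * (u + 2) =
      (u - v) * ((u + 1) ^ 2 * (v + 1) + (u + 1) * (v + 1) ^ 2 + ((u + 1) ^ 2 + (u + 1) * (v + 1) + (v + 1) ^ 2)) := by
    ring
  have h5 : 0 < (u - v) * ((u + 1) ^ 2 * (v + 1) + (u + 1) * (v + 1) ^ 2 + ((u + 1) ^ 2 + (u + 1) * (v + 1) + (v + 1) ^ 2)) := by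
    have : 0 < u - v := by linarith
    have : 0 < u := by linarith
    positivity
  linarith

theorem ps_le {s t : ℝ} (hs : 0 < s) (hst : s ≤ t) (ht : t ≤ 1) : ps t ≤ ps s := by
  rcases eq_or_lt_of_le hst with h | h
  · rw [h]
  · exact (ps_lt hs h ht).le

theorem ps_cont : ContinuousOn ps (Set.Ioi 0) := by
  unfold ps
  refine ContinuousOn.div (by fun_prop) (by fun_prop) fun x hx => ?_
  have : 0 < x := hx
  positivity

theorem ps_big {s : ℝ} (hs : 0 < s) (hs1 : s ≤ 1) : (27 * s ^ 2)⁻¹ ≤ ps s := by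
  unfold ps
  rw [inv_eq_one_div, div_le_div_iff₀ (by positivity) (by positivity)]
  have h1 : (1 + s) ^ 2 ≤ 4 := by nlinarith
  have h2 : 1 ≤ (1 + s + s ^ 2) ^ 3 := one_le_pow₀ (by nlinarith)
  have h3 : (s * (1 + s)) ^ 2 ≤ 4 * s ^ 2 := by
    rw [mul_pow]
    nlinarith [sq_nonneg s]
  have h4 : 4 * s ^ 2 ≤ 4 * s ^ 2 * (1 + s + s ^ 2) ^ 3 := by
    have : 0 ≤ 4 * s ^ 2 := by positivity
    nlinarith
  nlinarith

/-- the threshold -/
theorem thr {t : ℝ} (ht : 1 ≤ t) : ∃ τ : ℝ, 0 < τ ∧ τ ≤ 1 ∧ τ ^ 2 * t ≤ 4 ∧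
    ∀ s : ℝ, 0 < s → s ≤ 1 → (Cj t s ↔ τ ≤ s) := by
  obtain ⟨s0, hs0⟩ : ∃ s0 : ℝ, s0 = (27 * t)⁻¹ := ⟨_, rfl⟩
  have hs0p : 0 < s0 := by rw [hs0]; positivity
  have hs01 : s0 ≤ 1 := by
    rw [hs0]
    exact inv_le_one_of_one_le₀ (by linarith)
  have h1 : t ≤ ps s0 := by
    refine le_trans ?_ (ps_big hs0p hs01)
    rw [hs0]
    have : (27 * ((27 * t)⁻¹) ^ 2)⁻¹ = 27 * t ^ 2 := by field_simp
    rw [this]
    nlinarith
  have hmem : t ∈ Set.Icc (ps 1) (ps s0) := ⟨by rw [ps_one]; exact ht, h1⟩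
  have hiv := intermediate_value_Icc' hs01 (ps_cont.mono fun x hx => lt_of_lt_of_le hs0p hx.1)
  obtain ⟨τ, hτ, hτt⟩ := hiv hmem
  have hτ0 : 0 < τ := lt_of_lt_of_le hs0p hτ.1
  refine ⟨τ, hτ0, hτ.2, ?_, fun s h2 h3 => ?_⟩
  · have h5 : ps τ * τ ^ 2 ≤ 4 := by
      unfold ps
      rw [div_mul_eq_mul_div, div_le_iff₀ (by positivity)]
      have k1 : (1 + τ + τ ^ 2) ^ 3 ≤ 27 := by
        have : 1 + τ + τ ^ 2 ≤ 3 := by nlinarith [hτ.2]
        calc (1 + τ + τ ^ 2) ^ 3 ≤ 3 ^ 3 := pow_le_pow_left₀ (by positivity) this 3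
          _ = 27 := by norm_num
      have k2 : τ ^ 2 ≤ (τ * (1 + τ)) ^ 2 := pow_le_pow_left₀ hτ0.le (by nlinarith) 2
      have k3 : (1 + τ + τ ^ 2) ^ 3 * τ ^ 2 ≤ 27 * (τ * (1 + τ)) ^ 2 :=
        mul_le_mul k1 k2 (by positivity) (by norm_num)
      linarith
    rw [← hτt]
    linarith
  · rw [Cj_iff h2, ← hτt]
    constructor
    · intro h
      by_contra hcon
      push Not at hcon
      have := ps_lt h2 hcon hτ.2
      linarith
    · intro h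
      exact ps_le hτ0 h h3

/-- the law -/
noncomputable def Fl (t : ℝ) : ℝ :=
  (∫ s in {s : ℝ | 0 < s ∧ s ≤ 1 ∧ Cj t s}, gd s) / ∫ s in Set.Ioc (0 : ℝ) 1, gd s

theorem den_eq : ∫ s in Set.Ioc (0 : ℝ) 1, gd s = Gi 0 := by
  unfold Gi
  exact (intervalIntegral.integral_of_le zero_le_one).symm

theorem Fl_small {t : ℝ} (ht : t < 1) : Fl t = 0 := by
  unfold Fl
  have : {s : ℝ | 0 < s ∧ s ≤ 1 ∧ Cj t s} = ∅ := by
    ext s
    simp only [Set.mem_ofPred_eq, Set.mem_empty_iff_false, iff_false]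
    rintro ⟨h1, h2, h3⟩
    rw [Cj_iff h1] at h3
    have := ps_ge_one h1
    linarith
  rw [this]
  simp

theorem Fl_big {t τ : ℝ} (h0 : 0 < τ) (h1 : τ ≤ 1)
    (h : ∀ s : ℝ, 0 < s → s ≤ 1 → (Cj t s ↔ τ ≤ s)) : Fl t = Gi τ / Gi 0 := by
  unfold Fl
  rw [den_eq]
  have : {s : ℝ | 0 < s ∧ s ≤ 1 ∧ Cj t s} = Set.Icc τ 1 := by
    ext s
    simp only [Set.mem_ofPred_eq, Set.mem_Icc]
    constructor
    · rintro ⟨a, b, c⟩
      exact ⟨(h s a b).1 c, b⟩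
    · rintro ⟨a, b⟩
      exact ⟨by linarith, b, (h s (by linarith) b).2 a⟩
  rw [this, integral_Icc_eq_integral_Ioc]
  unfold Gi
  rw [intervalIntegral.integral_of_le h1]

theorem Fl_nonneg (t : ℝ) : 0 ≤ Fl t := by
  rcases lt_or_ge t 1 with h | h
  · rw [Fl_small h]
  · obtain ⟨τ, h0, h1, -, h2⟩ := thr h
    rw [Fl_big h0 h1 h2]
    exact div_nonneg (Gi_nonneg h0.le h1) Gi_zero_pos.le

theorem Fl_le_one (t : ℝ) : Fl t ≤ 1 := by
  rcases lt_or_ge t 1 with h | h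
  · rw [Fl_small h]
    exact zero_le_one
  · obtain ⟨τ, h0, h1, -, h2⟩ := thr h
    rw [Fl_big h0 h1 h2, div_le_one Gi_zero_pos]
    exact Gi_anti le_rfl h0.le h1

/-- the tail of the law -/
theorem Fl_tail {t : ℝ} (ht : 1 ≤ t) : 1 - Fl t ≤ 6 / Gi 0 * t ^ (-(1 / 6) : ℝ) := by
  obtain ⟨τ, h0, h1, h3, h2⟩ := thr ht
  have ht0 : 0 < t := by linarith
  rw [Fl_big h0 h1 h2]
  have h4 := Gi_zero h0 h1
  have hG := Gi_zero_pos
  have h5 : τ ^ (1 / 3 : ℝ) ≤ 2 * t ^ (-(1 / 6) : ℝ) := by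
    have h6 : τ ≤ 2 * t ^ (-(1 / 2) : ℝ) := by
      have h7 : τ ^ 2 ≤ (2 * t ^ (-(1 / 2) : ℝ)) ^ 2 := by
        rw [mul_pow, ← Real.rpow_natCast (t ^ (-(1 / 2) : ℝ)), ← Real.rpow_mul ht0.le]
        norm_num
        rw [Real.rpow_neg_one, ← div_eq_mul_inv, le_div_iff₀ ht0]
        exact h3
      exact (pow_le_pow_iff_left₀ h0.le (by positivity) (by norm_num)).1 h7
    calc τ ^ (1 / 3 : ℝ) ≤ (2 * t ^ (-(1 / 2) : ℝ)) ^ (1 / 3 : ℝ) :=
          Real.rpow_le_rpow h0.le h6 (by norm_num)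
      _ = 2 ^ (1 / 3 : ℝ) * t ^ (-(1 / 6) : ℝ) := by
          rw [Real.mul_rpow (by norm_num) (by positivity), ← Real.rpow_mul ht0.le]
          norm_num
      _ ≤ 2 * t ^ (-(1 / 6) : ℝ) := by
          refine mul_le_mul_of_nonneg_right ?_ (by positivity)
          calc (2 : ℝ) ^ (1 / 3 : ℝ) ≤ 2 ^ (1 : ℝ) :=
                Real.rpow_le_rpow_of_exponent_le (by norm_num) (by norm_num)
            _ = 2 := Real.rpow_one 2
  have e : 1 - Gi τ / Gi 0 = (Gi 0 - Gi τ) / Gi 0 := by field_simp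
  rw [e, div_mul_eq_mul_div]
  refine div_le_div_of_nonneg_right ?_ hG.le
  linarith

theorem Fl_tendsto : Tendsto Fl atTop (𝓝 1) := by
  have h1 : Tendsto (fun t : ℝ => 6 / Gi 0 * t ^ (-(1 / 6) : ℝ)) atTop (𝓝 (6 / Gi 0 * 0)) :=
    (tendsto_rpow_neg_atTop (by norm_num)).const_mul _
  rw [mul_zero] at h1
  have h2 : Tendsto (fun t : ℝ => 1 - 6 / Gi 0 * t ^ (-(1 / 6) : ℝ)) atTop (𝓝 (1 - 0)) :=
    tendsto_const_nhds.sub h1
  rw [sub_zero] at h2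
  refine tendsto_of_tendsto_of_tendsto_of_le_of_le' h2 tendsto_const_nhds ?_ ?_
  · filter_upwards [eventually_ge_atTop 1] with t ht
    have := Fl_tail ht
    linarith
  · filter_upwards with t
    exact Fl_le_one t

end Pool.Agent.Y679.Jl
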