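import Pool.Agent.Y679.Jl.Law
import Pool.Agent.Y679.Jl.Psi
import Pool.Agent.Y679.Fin2

/-! **The joint law of the quotient and of the invariant** (helper679). -/

set_option autoImplicit false

namespace Pool.Agent.Y679.Jl

open Finset Filter Topology Pool.Agent.TH498.AR Pool.Agent.H925R.Szpiro Pool.Agent.Y679.Par
  Pool.Agent.Y679.Cur

/-- locally constant functions of the models -/
def Lct (c : ℤ × ℤ → ℕ) : Prop :=
  ∀ m : ℕ, ∃ k : ℕ, ∀ q q' : ℤ × ℤ, IsMin q.1 q.2 → FullS q.1 q.2 → IsMin q'.1 q'.2 →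
    FullS q'.1 q'.2 → ¬ (2 : ℤ) ^ m ∣ D q.1 q.2 → ¬ (3 : ℤ) ^ m ∣ D q.1 q.2 →
    ¬ (2 : ℤ) ^ m ∣ D q'.1 q'.2 → ¬ (3 : ℤ) ^ m ∣ D q'.1 q'.2 →
    (6 : ℤ) ^ k ∣ q.1 - q'.1 → (6 : ℤ) ^ k ∣ q.2 - q'.2 → c q = c q'

theorem Lct_pair {c c' : ℤ × ℤ → ℕ} (h : Lct c) (h' : Lct c') :
    Lct (fun q => Nat.pair (c q) (c' q)) := by
  intro m
  obtain ⟨k, hk⟩ := h m
  obtain ⟨k', hk'⟩ := h' m
  refine ⟨max k k', fun q q' a1 a2 a3 a4 a5 a6 a7 a8 a9 a10 => ?_⟩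
  have e1 : (6 : ℤ) ^ k ∣ 6 ^ max k k' := pow_dvd_pow _ (le_max_left _ _)
  have e2 : (6 : ℤ) ^ k' ∣ 6 ^ max k k' := pow_dvd_pow _ (le_max_right _ _)
  simp only
  rw [hk q q' a1 a2 a3 a4 a5 a6 a7 a8 (e1.trans a9) (e1.trans a10),
    hk' q q' a1 a2 a3 a4 a5 a6 a7 a8 (e2.trans a9) (e2.trans a10)]

/-- the pairs with quotient `w` and class `l` -/
def Pc (c : ℤ × ℤ → ℕ) (w l : ℕ) : Set (ℕ × ℕ) := {p | p ∈ Sw w ∧ c (mo p) = l}

theorem Pc_loc {c : ℤ × ℤ → ℕ} (hl : Lct c) {w : ℕ} (hw : 0 < w) (l : ℕ) :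
    IsLoc (Pc c w l) := by
  classical
  intro P1
  obtain ⟨P0, hP1, Q0, hQ0, T0, -, hT1, hT2⟩ := Sw_loc hw P1
  obtain ⟨k, hk⟩ := hl (2 * w + 1)
  obtain ⟨Q, hQ⟩ : ∃ Q, Q = Q0 * (3 * 6 ^ k) := ⟨_, rfl⟩
  have hQpos : 0 < Q := by rw [hQ]; positivity
  refine ⟨P0, hP1, Q, hQpos, (range Q ×ˢ range Q).filter
    (fun t => ∃ p ∈ Pc c w l, p.1 % Q = t.1 ∧ p.2 % Q = t.2), filter_subset _ _, ?_, ?_⟩
  · intro p hp
    rw [mem_filter, mem_product, mem_range, mem_range]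
    exact ⟨⟨Nat.mod_lt _ hQpos, Nat.mod_lt _ hQpos⟩, p, hp, rfl, rfl⟩
  · intro p h1 h2 ht hlarge
    rw [mem_filter] at ht
    obtain ⟨-, p', ⟨hp'S, hp'l⟩, e1, e2⟩ := ht
    simp only at e1 e2
    have m1 : p'.1 ≡ p.1 [MOD Q] := e1
    have m2 : p'.2 ≡ p.2 [MOD Q] := e2
    have hQ0d : Q0 ∣ Q := ⟨_, hQ⟩
    have hpS : p ∈ Sw w := by
      refine hT2 p h1 h2 ?_ hlarge
      have c1 : p'.1 % Q0 = p.1 % Q0 := Nat.ModEq.of_dvd hQ0d m1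
      have c2 : p'.2 % Q0 = p.2 % Q0 := Nat.ModEq.of_dvd hQ0d m2
      rw [← c1, ← c2]
      exact hT1 p' hp'S
    refine ⟨hpS, ?_⟩
    rw [← hp'l]
    have h3 : (3 : ℤ) ∣ (p.1 : ℤ) - p.2 := hpS.1.2.2.1
    have h3' : (3 : ℤ) ∣ (p'.1 : ℤ) - p'.2 := hp'S.1.2.2.1
    have hd36 : (3 * 6 ^ k : ℕ) ∣ Q := ⟨Q0, by rw [hQ]; ring⟩
    have d1 : ((3 * 6 ^ k : ℕ) : ℤ) ∣ (p'.1 : ℤ) - p.1 :=
      Nat.modEq_iff_dvd.1 (Nat.ModEq.of_dvd hd36 m1).symm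
    have d2 : ((3 * 6 ^ k : ℕ) : ℤ) ∣ (p'.2 : ℤ) - p.2 :=
      Nat.modEq_iff_dvd.1 (Nat.ModEq.of_dvd hd36 m2).symm
    have dm : (6 : ℤ) ^ k ∣ mid p' - mid p := by
      have h4 : (3 : ℤ) * 6 ^ k ∣ 3 * (mid p' - mid p) := by
        have e : 3 * (mid p' - mid p) = ((p'.1 : ℤ) - p.1) - ((p'.2 : ℤ) - p.2) := by
          have := mid_eq h3
          have := mid_eq h3'
          linarith
        rw [e]
        push_cast at d1 d2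
        exact dvd_sub d1 d2
      exact (mul_dvd_mul_iff_left (by norm_num : (3 : ℤ) ≠ 0)).1 h4
    have d1' : (6 : ℤ) ^ k ∣ (p'.1 : ℤ) - p.1 := by
      push_cast at d1
      exact (Dvd.intro_left _ rfl).trans d1
    have d2' : (6 : ℤ) ^ k ∣ (p'.2 : ℤ) - p.2 := by
      push_cast at d2
      exact (Dvd.intro_left _ rfl).trans d2
    have q0 : mid p ≡ mid p' [ZMOD (6 : ℤ) ^ k] := Int.modEq_iff_dvd.2 dm
    have q1 : (p.1 : ℤ) ≡ p'.1 [ZMOD (6 : ℤ) ^ k] := Int.modEq_iff_dvd.2 d1'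
    have q2 : (p.2 : ℤ) ≡ p'.2 [ZMOD (6 : ℤ) ^ k] := Int.modEq_iff_dvd.2 d2'
    have r1 := q0.sub q1
    have r2 := q0.add q2
    have s1 : (mo p).1 ≡ (mo p').1 [ZMOD (6 : ℤ) ^ k] := by
      unfold mo
      exact (((r1.mul q0).add (r1.mul r2)).add (q0.mul r2)).neg
    have s2 : (mo p).2 ≡ (mo p').2 [ZMOD (6 : ℤ) ^ k] := by
      unfold mo
      exact (r1.mul q0).mul r2
    exact hk (mo p) (mo p') (mo_min hpS.1) (mo_full h3) (mo_min hp'S.1) (mo_full h3')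
      (by exact_mod_cast small_pow hw hpS Nat.prime_two (by norm_num))
      (by exact_mod_cast small_pow hw hpS Nat.prime_three (by norm_num))
      (by exact_mod_cast small_pow hw hp'S Nat.prime_two (by norm_num))
      (by exact_mod_cast small_pow hw hp'S Nat.prime_three (by norm_num))
      (Int.modEq_iff_dvd.1 s1.symm) (Int.modEq_iff_dvd.1 s2.symm)

/-- the height -/
def Hh (q : ℤ × ℤ) : ℤ := max (4 * |q.1| ^ 3) (27 * q.2 ^ 2)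

theorem mo_H {p : ℕ × ℕ} (hp : Gd p) :
    27 * Hh (mo p) = 4 * ((p.1 : ℤ) ^ 2 + p.1 * p.2 + (p.2 : ℤ) ^ 2) ^ 3 := by
  have ha := mo_a hp.2.2.1
  have hD := mo_D hp.2.2.1
  have hn : 0 < nn p := nn_pos' hp
  have hn' : (0 : ℤ) < nn p := by exact_mod_cast hn
  have h1 : (0 : ℤ) < p.1 := by exact_mod_cast hp.1
  have h2 : (0 : ℤ) < p.2 := by exact_mod_cast hp.2.1
  have ha0 : 0 < (mo p).1 := by
    have : 0 < 3 * (mo p).1 := by rw [ha]; positivity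
    linarith
  unfold D at hD
  have hlt : 27 * (mo p).2 ^ 2 ≤ 4 * |(mo p).1| ^ 3 := by
    rw [abs_of_pos ha0]
    have : 0 < (nn p : ℤ) ^ 2 := by positivity
    linarith
  unfold Hh
  rw [max_eq_left hlt, abs_of_pos ha0, ← ha]
  ring

theorem mo_HD {p : ℕ × ℕ} (hp : Gd p) (t : ℝ) :
    ((Hh (mo p) : ℤ) : ℝ) ≤ t * ((D (mo p).1 (mo p).2 : ℤ) : ℝ) ↔
      Cj t (((min p.1 p.2 : ℕ) : ℝ) / ((max p.1 p.2 : ℕ) : ℝ)) := by
  have hH := mo_H hp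
  have hD := mo_D hp.2.2.1
  obtain ⟨m, hm⟩ : ∃ m : ℝ, m = ((min p.1 p.2 : ℕ) : ℝ) := ⟨_, rfl⟩
  obtain ⟨M, hM⟩ : ∃ M : ℝ, M = ((max p.1 p.2 : ℕ) : ℝ) := ⟨_, rfl⟩
  have hM0 : 0 < M := by
    rw [hM]
    exact_mod_cast lt_max_of_lt_left hp.1
  have hm0 : 0 < m := by
    rw [hm]
    exact_mod_cast lt_min hp.1 hp.2.1
  have e1 : 27 * ((Hh (mo p) : ℤ) : ℝ) = 4 * (m ^ 2 + m * M + M ^ 2) ^ 3 := by
    have : 27 * ((Hh (mo p) : ℤ) : ℝ) = 4 * ((p.1 : ℝ) ^ 2 + p.1 * p.2 + (p.2 : ℝ) ^ 2) ^ 3 := by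
      exact_mod_cast hH
    rw [this, hm, hM]
    rcases le_total p.1 p.2 with h | h
    · rw [min_eq_left h, max_eq_right h]
    · rw [min_eq_right h, max_eq_left h]
      ring
  have e2 : ((D (mo p).1 (mo p).2 : ℤ) : ℝ) = (m * M * (m + M)) ^ 2 := by
    have : ((D (mo p).1 (mo p).2 : ℤ) : ℝ) = ((p.1 : ℝ) * p.2 * (p.1 + p.2)) ^ 2 := by
      rw [hD]
      unfold nn
      push_cast
      ring
    rw [this, hm, hM]
    rcases le_total p.1 p.2 with h | h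
    · rw [min_eq_left h, max_eq_right h]
    · rw [min_eq_right h, max_eq_left h]
      ring
  rw [← hm, ← hM, e2]
  unfold Cj
  have hM6 : 0 < M ^ 6 := by positivity
  have f1 : 4 * (1 + m / M + (m / M) ^ 2) ^ 3 = 27 * ((Hh (mo p) : ℤ) : ℝ) / M ^ 6 := by
    rw [e1]
    field_simp
    ring
  have f2 : t * (27 * (m / M * (1 + m / M)) ^ 2) = 27 * (t * (m * M * (m + M)) ^ 2) / M ^ 6 := by
    field_simp
    ring
  rw [f1, f2, div_le_div_iff_of_pos_right hM6]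
  constructor <;> intro h <;> linarith

/-- the ratio of a model is at least `τ` -/
def Rq (τ : ℝ) (q : ℤ × ℤ) : Prop :=
  ∀ p : ℕ × ℕ, Gd p → mo p = q → τ * (max p.1 p.2 : ℕ) ≤ (min p.1 p.2 : ℕ)

/-- the models with quotient `w`, class `m` and ratio at least `τ` -/
def Mr (lam c : ℤ × ℤ → ℕ) (w m : ℕ) (τ N : ℝ) : Set (ℤ × ℤ) :=
  {q | q ∈ Mw lam w N ∧ c q = m ∧ Rq τ q}

theorem Mr_limit {lam c : ℤ × ℤ → ℕ} (hl : Fac lam) (hc : Lct c) {w : ℕ} (hw : 0 < w) (m : ℕ) :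
    ∃ δ : ℝ, 0 ≤ δ ∧ ∀ τ : ℝ, 0 ≤ τ → τ ≤ 1 →
    Tendsto (fun N : ℝ => ((Mr lam c w m τ N).ncard : ℝ) / N ^ ((2 : ℝ) / 3)) atTop
      (𝓝 (δ * Gi τ)) := by
  classical
  choose κ hκ0 hκ using fun l : ℕ => Ax_law (Pc_loc (Lct_pair hl.2 hc) hw (Nat.pair l m))
  have hw0 : (0 : ℝ) < w := by exact_mod_cast hw
  refine ⟨∑ l ∈ Icc 1 62208, κ l * ((w : ℝ) / l) ^ ((2 : ℝ) / 3),
    sum_nonneg fun l _ => mul_nonneg (hκ0 l) (by positivity), fun τ hτ0 hτ1 => ?_⟩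
  obtain ⟨SS, hSS⟩ : ∃ SS : ℕ → Set (ℕ × ℕ), SS = fun l =>
    Rt (Pc (fun q => Nat.pair (lam q) (c q)) w (Nat.pair l m)) τ := ⟨_, rfl⟩
  have hlim : Tendsto (fun N : ℝ => ∑ l ∈ Icc 1 62208,
      ((Ax (SS l) (((w : ℝ) / l * N) ^ ((1 : ℝ) / 3))).ncard : ℝ) /
        (((w : ℝ) / l * N) ^ ((1 : ℝ) / 3)) ^ 2 * ((w : ℝ) / l) ^ ((2 : ℝ) / 3)) atTop
      (𝓝 ((∑ l ∈ Icc 1 62208, κ l * ((w : ℝ) / l) ^ ((2 : ℝ) / 3)) * Gi τ)) := by
    rw [sum_mul]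
    refine tendsto_finsetSum _ fun l hl' => ?_
    have hl0 : (0 : ℝ) < l := by exact_mod_cast (mem_Icc.1 hl').1
    have e : κ l * ((w : ℝ) / l) ^ ((2 : ℝ) / 3) * Gi τ = κ l * Gi τ * ((w : ℝ) / l) ^ ((2 : ℝ) / 3) := by
      ring
    rw [e, hSS]
    refine Tendsto.mul_const _ ((hκ l τ hτ0 hτ1).comp ?_)
    refine (tendsto_rpow_atTop (by norm_num)).comp ?_
    exact tendsto_id.const_mul_atTop (by positivity)
  refine hlim.congr' ?_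
  filter_upwards [eventually_gt_atTop 0] with N hN
  obtain ⟨FA, hFA⟩ : ∃ FA : ℕ → Finset (ℕ × ℕ), FA = fun l =>
    (Ax_fin (SS l) (((w : ℝ) / l * N) ^ ((1 : ℝ) / 3))).toFinset := ⟨_, rfl⟩
  have hmemSS : ∀ (l : ℕ) (p : ℕ × ℕ), p ∈ SS l ↔ (p ∈ Sw w ∧ lam (mo p) = l ∧ c (mo p) = m) ∧
      τ * (max p.1 p.2 : ℕ) ≤ (min p.1 p.2 : ℕ) := by
    intro l p
    rw [hSS]
    constructor
    · rintro ⟨⟨h1, h2⟩, h3⟩
      simp only at h2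
      obtain ⟨h4, h5⟩ := Nat.pair_eq_pair.1 h2
      exact ⟨⟨h1, h4, h5⟩, h3⟩
    · rintro ⟨⟨h1, h4, h5⟩, h3⟩
      refine ⟨⟨h1, ?_⟩, h3⟩
      simp only
      rw [h4, h5]
  have hmemFA : ∀ (l : ℕ) (p : ℕ × ℕ), 0 < l → (p ∈ FA l ↔
      (p ∈ SS l ∧ (l : ℝ) * g6 p ≤ N)) := by
    intro l p hl'
    have hl0 : (0 : ℝ) < l := by exact_mod_cast hl'
    rw [hFA]
    simp only [Set.Finite.mem_toFinset]
    have e : (((w : ℝ) / l * N) ^ ((1 : ℝ) / 3)) ^ 3 = (w : ℝ) / l * N := by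
      rw [← Real.rpow_natCast, ← Real.rpow_mul (by positivity)]
      norm_num
    constructor
    · rintro ⟨hp, h1, h2, h3⟩
      refine ⟨hp, ?_⟩
      rw [e] at h3
      have h4 : (p.1 : ℝ) * p.2 * (p.1 + p.2) = w * g6 p := by
        have := ((hmemSS l p).1 hp).1.1.2
        unfold nn at this
        exact_mod_cast this
      rw [h4] at h3
      have h5 : (w : ℝ) * (l * g6 p) ≤ w * N := by
        calc (w : ℝ) * (l * g6 p) = l * (w * g6 p) := by ring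
          _ ≤ l * ((w : ℝ) / l * N) := mul_le_mul_of_nonneg_left h3 hl0.le
          _ = w * N := by field_simp
      exact le_of_mul_le_mul_left h5 hw0
    · rintro ⟨hp, h1⟩
      have hp' := ((hmemSS l p).1 hp).1.1
      refine ⟨hp, hp'.1.1, hp'.1.2.1, ?_⟩
      rw [e]
      have h4 : (p.1 : ℝ) * p.2 * (p.1 + p.2) = w * g6 p := by
        have := hp'.2
        unfold nn at this
        exact_mod_cast this
      rw [h4]
      calc (w : ℝ) * g6 p = (w : ℝ) / l * (l * g6 p) := by field_simp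
        _ ≤ (w : ℝ) / l * N := mul_le_mul_of_nonneg_left h1 (by positivity)
  have hset : Mr lam c w m τ N = (((Icc 1 62208).biUnion (fun l => (FA l).image mo) :
      Finset (ℤ × ℤ)) : Set (ℤ × ℤ)) := by
    ext q
    rw [mem_coe, mem_biUnion]
    constructor
    · rintro ⟨⟨⟨h1, h2, h3⟩, h4⟩, h6, h7⟩
      obtain ⟨l1, l2⟩ := hl.1 q h1 h2
      obtain ⟨p, hp, he⟩ := mo_surj h1 h2
      have he' : mo p = q := he
      refine ⟨lam q, mem_Icc.2 ⟨l1, l2⟩, mem_image.2 ⟨p, ?_, he'⟩⟩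
      have hcd : condS q.1 q.2 = g6 p := by rw [← he']; exact mo_cond hp
      have hD : D q.1 q.2 = (nn p : ℤ) ^ 2 := by rw [← he']; exact mo_D hp.2.2.1
      rw [hmemFA _ _ l1]
      rw [hcd] at h3 h4
      rw [hD] at h4
      refine ⟨(hmemSS _ _).2 ⟨⟨⟨hp, ?_⟩, by rw [he'], by rw [he']; exact h6⟩, h7 p hp he'⟩, ?_⟩
      · have h5 : nn p ^ 2 = (w * g6 p) ^ 2 := by exact_mod_cast h4
        exact (Nat.pow_left_injective (by norm_num : 2 ≠ 0)) h5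
      · push_cast at h3
        exact h3
    · rintro ⟨l, hl', hq⟩
      obtain ⟨p, hp, rfl⟩ := mem_image.1 hq
      rw [hmemFA _ _ (mem_Icc.1 hl').1, hmemSS] at hp
      obtain ⟨⟨⟨⟨hp1, hp2⟩, hp3, hp5⟩, hp6⟩, hp4⟩ := hp
      refine ⟨⟨⟨mo_min hp1, mo_full hp1.2.2.1, ?_⟩, ?_⟩, hp5, ?_⟩
      · rw [mo_cond hp1, hp3]
        push_cast
        exact hp4
      · rw [mo_D hp1.2.2.1, mo_cond hp1, ← hp2]
      · intro p' hp' he
        rw [mo_inj hp' hp1 he]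
        exact hp6
  have hcard : ((Mr lam c w m τ N).ncard : ℝ) = ∑ l ∈ Icc 1 62208,
      ((Ax (SS l) (((w : ℝ) / l * N) ^ ((1 : ℝ) / 3))).ncard : ℝ) := by
    rw [hset, Set.ncard_coe_finset, card_biUnion]
    · push_cast
      refine sum_congr rfl fun l hl' => ?_
      rw [Set.ncard_eq_toFinset_card _ (Ax_fin _ _), card_image_of_injOn, hFA]
      intro p hp p' hp' heq
      rw [mem_coe, hmemFA _ _ (mem_Icc.1 hl').1, hmemSS] at hp hp'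
      exact mo_inj hp.1.1.1.1 hp'.1.1.1.1 heq
    · intro l hl1 l' hl2 hne
      rw [Function.onFun, disjoint_left]
      intro q hq hq'
      obtain ⟨p, hp, rfl⟩ := mem_image.1 hq
      obtain ⟨p', hp', he⟩ := mem_image.1 hq'
      rw [hmemFA _ _ (mem_Icc.1 hl1).1, hmemSS] at hp
      rw [hmemFA _ _ (mem_Icc.1 hl2).1, hmemSS] at hp'
      apply hne
      rw [← hp.1.1.2.1, ← hp'.1.1.2.1, he]
  rw [hcard, sum_div]
  refine sum_congr rfl fun l hl' => ?_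
  have hl0 : (0 : ℝ) < l := by exact_mod_cast (mem_Icc.1 hl').1
  have e : (((w : ℝ) / l * N) ^ ((1 : ℝ) / 3)) ^ 2 =
      ((w : ℝ) / l) ^ ((2 : ℝ) / 3) * N ^ ((2 : ℝ) / 3) := by
    rw [← Real.rpow_natCast, ← Real.rpow_mul (by positivity), Real.mul_rpow (by positivity) hN.le]
    norm_num
  rw [e]
  have h1 : ((w : ℝ) / l) ^ ((2 : ℝ) / 3) ≠ 0 := by positivity
  have h2 : N ^ ((2 : ℝ) / 3) ≠ 0 := by positivity
  field_simp

end Pool.Agent.Y679.Jl
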