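import Pool.Agent.Y679.Jl.Ta
import Pool.Agent.Y679.Jl.Mo

/-! **The pairs with a large product of quotient and invariant** (helper679). -/

set_option autoImplicit false

namespace Pool.Agent.Y679.Jl

open Finset Filter Topology Pool.Agent.TH498.AR Pool.Agent.H925R.Szpiro Pool.Agent.Y679.Par
  Pool.Agent.Y679.Cur

/-- **The pairs with a large product of quotient and ratio.** -/
theorem tail_pairs' {σ : ℝ} (hσ : 0 < σ) (hσ1 : σ < 1 / 3) : ∃ C : ℝ, 0 < C ∧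
    ∀ N W : ℝ, 1 ≤ N → 1 ≤ W → ∀ E : Finset (ℕ × ℕ),
    (∀ p ∈ E, Gd p ∧ p.1 ≤ p.2 ∧ (g6 p : ℝ) ≤ N ∧ W * (g6 p : ℝ) * p.1 ≤ (nn p : ℝ) * p.2 ∧
      ((p.1 + p.2 : ℕ) : ℝ) ≤ 2 * N ^ (1 / 3 + 1 / 480 : ℝ)) →
    (E.card : ℝ) ≤ C * (W ^ (-σ) * N ^ ((2 : ℝ) / 3) + N ^ (2 / 3 - 1 / 120 : ℝ)) := by
  classical
  obtain ⟨γ, hγ⟩ : ∃ γ, γ = 1 / 3 - σ := ⟨_, rfl⟩
  have hγ0 : 0 < γ := by rw [hγ]; linarith
  obtain ⟨C1, C2, hC1, hC2, hfix⟩ := fixed' hσ hσ1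
  obtain ⟨D, hD⟩ : ∃ D : ℝ, 1 ≤ D ∧ ∀ n : ℕ, 1 ≤ n →
      C2 ^ n.primeFactors.card ≤ D * (n : ℝ) ^ (γ / 2) := by
    obtain ⟨D, hD, h⟩ := Pool.Agent.H785R2.ABC.stmtA1 C2 hC2 (γ / 2) (by positivity)
    refine ⟨max D 1, le_max_right _ _, fun n hn => (h n hn).trans ?_⟩
    exact mul_le_mul_of_nonneg_right (le_max_left _ _) (by positivity)
  obtain ⟨hD1, hD2⟩ := hD
  obtain ⟨Z, hZ⟩ : ∃ Z : ℝ, Z = ∑' n : ℕ, ((n : ℝ) ^ (1 + γ / 4))⁻¹ := ⟨_, rfl⟩
  have hsm : Summable fun n : ℕ => ((n : ℝ) ^ (1 + γ / 4))⁻¹ :=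
    Real.summable_nat_rpow_inv.2 (by linarith)
  have hZ0 : 0 ≤ Z := by rw [hZ]; exact tsum_nonneg fun n => by positivity
  refine ⟨C1 * C2 ^ 2 * D * 324 * (Z + 1), by positivity, ?_⟩
  intro N W hN hW E hE
  have hN0 : 0 < N := by linarith
  have hW0 : 0 < W := by linarith
  obtain ⟨B, hB⟩ : ∃ B : ℕ, B = ⌊2 * N ^ (1 / 3 + 1 / 480 : ℝ)⌋₊ := ⟨_, rfl⟩
  obtain ⟨S, hS⟩ : ∃ S : ℝ, S = W ^ (-σ) * N ^ ((2 : ℝ) / 3) + N ^ (2 / 3 - 1 / 120 : ℝ) :=
    ⟨_, rfl⟩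
  have hS0 : 0 ≤ S := by rw [hS]; positivity
  rw [← hS]
  have hmaps : ∀ p ∈ E, Nat.gcd p.1 p.2 ∈ Icc 1 B := by
    intro p hp
    obtain ⟨⟨h1, h2, -⟩, -, -, -, h5⟩ := hE p hp
    have h6 : p.1 + p.2 ≤ B := by rw [hB]; exact Nat.le_floor h5
    have h7 := Nat.gcd_le_left p.2 h1
    exact mem_Icc.2 ⟨Nat.gcd_pos_of_pos_left _ h1, by omega⟩
  have hone : ∀ h ∈ Icc 1 B, ((E.filter (fun p => Nat.gcd p.1 p.2 = h)).card : ℝ) ≤
      C1 * C2 ^ 2 * D * 324 * (((h : ℝ) ^ (1 + γ / 4))⁻¹ * S) := by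
    intro h hh
    obtain ⟨hh1, -⟩ := mem_Icc.1 hh
    have hhr : (1 : ℝ) ≤ h := by exact_mod_cast hh1
    have hhr0 : (0 : ℝ) < h := by linarith
    rcases (E.filter (fun p => Nat.gcd p.1 p.2 = h)).eq_empty_or_nonempty with he | ⟨p0, hp0⟩
    · rw [he, card_empty, Nat.cast_zero]
      positivity
    obtain ⟨Y, hY⟩ : ∃ Y : ℝ, Y = 324 * N / (h : ℝ) ^ 2 := ⟨_, rfl⟩
    have hY0 : 0 < Y := by rw [hY]; positivity
    have hdec : ∀ p ∈ E.filter (fun p => Nat.gcd p.1 p.2 = h),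
        p.1 = h * (p.1 / h) ∧ p.2 = h * (p.2 / h) := by
      intro p hp
      have hg := (mem_filter.1 hp).2
      constructor
      · rw [← hg]; exact (Nat.mul_div_cancel' (Nat.gcd_dvd_left _ _)).symm
      · rw [← hg]; exact (Nat.mul_div_cancel' (Nat.gcd_dvd_right _ _)).symm
    have hcondr : ∀ p ∈ E.filter (fun p => Nat.gcd p.1 p.2 = h),
        (h : ℝ) ^ 2 * (radP (P6 h) ((p.1 / h) * (p.2 / h) * (p.1 / h + p.2 / h)) : ℝ) ≤
          324 * (g6 p : ℝ) := by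
      intro p hp
      obtain ⟨hpE, hg⟩ := mem_filter.1 hp
      obtain ⟨d1, d2⟩ := hdec p hp
      exact_mod_cast g6_ge (hE p hpE).1 hg.symm d1 d2
    have hradY : ∀ p ∈ E.filter (fun p => Nat.gcd p.1 p.2 = h),
        (radP (P6 h) ((p.1 / h) * (p.2 / h) * (p.1 / h + p.2 / h)) : ℝ) ≤ Y := by
      intro p hp
      have h1 := hcondr p hp
      have h2 := (hE p (mem_filter.1 hp).1).2.2.1
      rw [hY, le_div_iff₀ (by positivity)]
      linarith
    have hY1 : 1 ≤ Y := by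
      refine le_trans ?_ (hradY p0 hp0)
      exact_mod_cast radP_pos _ _
    obtain ⟨E', hE'⟩ : ∃ E', E' = (E.filter (fun p => Nat.gcd p.1 p.2 = h)).image
      (fun p => (p.1 / h, p.2 / h)) := ⟨_, rfl⟩
    have hcard : (E.filter (fun p => Nat.gcd p.1 p.2 = h)).card = E'.card := by
      rw [hE']
      refine (card_image_of_injOn ?_).symm
      intro p hp p' hp' heq
      obtain ⟨d1, d2⟩ := hdec p hp
      obtain ⟨d1', d2'⟩ := hdec p' hp'
      simp only [Prod.mk.injEq] at heq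
      refine Prod.ext ?_ ?_
      · rw [d1, d1', heq.1]
      · rw [d2, d2', heq.2]
    rw [hcard]
    have hmain := hfix (P6 h) Y (max 1 (W / (324 * h))) hY1 (le_max_left _ _) E' (by
      intro x hx
      rw [hE', mem_image] at hx
      obtain ⟨p, hp, rfl⟩ := hx
      obtain ⟨hpE, hg⟩ := mem_filter.1 hp
      obtain ⟨hGd, hle, hN', hW', hsz⟩ := hE p hpE
      obtain ⟨d1, d2⟩ := hdec p hp
      have u0 : 0 < p.1 / h := Nat.pos_of_ne_zero fun h0 => by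
        have := hGd.1
        rw [h0, mul_zero] at d1
        omega
      have v0 : 0 < p.2 / h := Nat.pos_of_ne_zero fun h0 => by
        have := hGd.2.1
        rw [h0, mul_zero] at d2
        omega
      have hcop : Nat.Coprime (p.1 / h) (p.2 / h) := by
        have := Nat.coprime_div_gcd_div_gcd (m := p.1) (n := p.2)
          (Nat.gcd_pos_of_pos_left _ hGd.1)
        rwa [hg] at this
      refine ⟨u0, Nat.div_le_div_right hle, hcop, hradY p hp, ?_, ?_⟩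
      · rw [hY]
        refine size_le hN hhr ?_
        refine le_trans (le_of_eq ?_) hsz
        have : p.1 + p.2 = h * (p.1 / h + p.2 / h) := by
          rw [mul_add, ← d1, ← d2]
        exact_mod_cast this.symm
      · have hpsi := coprime3 (P := P6 h) (p := (p.1 / h, p.2 / h)) hcop
        simp only at hpsi
        have hr0 : (0 : ℝ) < (radP (P6 h) ((p.1 / h) * (p.2 / h) * (p.1 / h + p.2 / h)) : ℝ) := by
          exact_mod_cast radP_pos _ _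
        have hnn : (nn p : ℝ) = (h : ℝ) ^ 3 * ((psi3 (P6 h) (p.1 / h, p.2 / h) : ℝ) *
            (radP (P6 h) ((p.1 / h) * (p.2 / h) * (p.1 / h + p.2 / h)) : ℝ)) := by
          have : nn p = h ^ 3 * (psi3 (P6 h) (p.1 / h, p.2 / h) *
              radP (P6 h) ((p.1 / h) * (p.2 / h) * (p.1 / h + p.2 / h))) := by
            rw [hpsi]
            unfold nn
            calc p.1 * p.2 * (p.1 + p.2) = (h * (p.1 / h)) * (h * (p.2 / h)) *
                ((h * (p.1 / h)) + (h * (p.2 / h))) := by rw [← d1, ← d2]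
              _ = _ := by ring
          exact_mod_cast this
        have hu0 : (0 : ℝ) < ((p.1 / h : ℕ) : ℝ) := by exact_mod_cast u0
        have hv0 : (0 : ℝ) < ((p.2 / h : ℕ) : ℝ) := by exact_mod_cast v0
        have huv : ((p.1 / h : ℕ) : ℝ) ≤ ((p.2 / h : ℕ) : ℝ) := by
          exact_mod_cast Nat.div_le_div_right hle
        have e1 : (p.1 : ℝ) = h * ((p.1 / h : ℕ) : ℝ) := by exact_mod_cast d1
        have e2 : (p.2 : ℝ) = h * ((p.2 / h : ℕ) : ℝ) := by exact_mod_cast d2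
        have h9' : 0 < psi3 (P6 h) (p.1 / h, p.2 / h) := by
          rcases Nat.eq_zero_or_pos (psi3 (P6 h) (p.1 / h, p.2 / h)) with h0 | h0
          · rw [h0, zero_mul] at hpsi
            have : 0 < (p.1 / h) * (p.2 / h) * (p.1 / h + p.2 / h) := by positivity
            omega
          · exact h0
        have h9 := hcondr p hp
        rw [hnn] at hW'
        obtain ⟨R, hR⟩ : ∃ R : ℝ, R = (radP (P6 h) ((p.1 / h) * (p.2 / h) * (p.1 / h + p.2 / h)) : ℝ) :=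
          ⟨_, rfl⟩
        obtain ⟨Q, hQ⟩ : ∃ Q : ℝ, Q = (psi3 (P6 h) (p.1 / h, p.2 / h) : ℝ) := ⟨_, rfl⟩
        obtain ⟨u, hu⟩ : ∃ u : ℝ, u = ((p.1 / h : ℕ) : ℝ) := ⟨_, rfl⟩
        obtain ⟨v, hv⟩ : ∃ v : ℝ, v = ((p.2 / h : ℕ) : ℝ) := ⟨_, rfl⟩
        obtain ⟨g, hg'⟩ : ∃ g : ℝ, g = (g6 p : ℝ) := ⟨_, rfl⟩
        have hQ1 : 1 ≤ Q := by rw [hQ]; exact_mod_cast h9'
        simp only
        rw [← hR] at h9 hr0
        rw [← hR, ← hQ, e1, e2, ← hu, ← hv, ← hg'] at hW'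
        rw [← hg'] at h9
        rw [← hu] at hu0 huv
        rw [← hv] at hv0 huv
        rw [← hQ, ← hu, ← hv, max_mul_of_nonneg _ _ hu0.le]
        refine max_le ?_ ?_
        · rw [one_mul]
          nlinarith
        · rw [div_mul_eq_mul_div, div_le_iff₀ (by positivity)]
          have h10 : W * g * u ≤ (h : ℝ) ^ 3 * (Q * R) * v := by
            have : (W * g * u) * h ≤ ((h : ℝ) ^ 3 * (Q * R) * v) * h := by
              refine le_of_eq_of_le ?_ (le_of_le_of_eq hW' ?_)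
              · ring
              · ring
            exact le_of_mul_le_mul_right this hhr0
          have h11 : (0 : ℝ) < (h : ℝ) ^ 2 * R := by positivity
          have h12 : W * u * ((h : ℝ) ^ 2 * R) ≤ Q * v * (324 * h) * ((h : ℝ) ^ 2 * R) := by
            calc W * u * ((h : ℝ) ^ 2 * R) ≤ W * u * (324 * g) :=
                  mul_le_mul_of_nonneg_left h9 (by positivity)
              _ = 324 * (W * g * u) := by ring
              _ ≤ 324 * ((h : ℝ) ^ 3 * (Q * R) * v) := by linarith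
              _ = _ := by ring
          exact le_of_mul_le_mul_right h12 h11)
    have hpow : C2 ^ (P6 h).card ≤ C2 ^ 2 * (D * (h : ℝ) ^ (γ / 2)) := by
      calc C2 ^ (P6 h).card ≤ C2 ^ (2 + h.primeFactors.card) :=
            pow_le_pow_right₀ hC2 (P6_card h hh1)
        _ = C2 ^ 2 * C2 ^ h.primeFactors.card := pow_add _ _ _
        _ ≤ _ := mul_le_mul_of_nonneg_left (hD2 h hh1) (by positivity)
    have hterm := term_le hγ hσ hγ0 hN hW hhr
    rw [← hY] at hterm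
    have hC10 : 0 < C1 := by linarith
    have hC20 : 0 < C2 := by linarith
    have hD0 : 0 < D := by linarith
    obtain ⟨T, hT⟩ : ∃ T : ℝ, T = (max 1 (W / (324 * h))) ^ (-σ) * Y ^ ((2 : ℝ) / 3) +
      Y ^ (2 / 3 - 1 / 120 : ℝ) := ⟨_, rfl⟩
    have hT0 : 0 ≤ T := by
      rw [hT]
      have : (0 : ℝ) < max 1 (W / (324 * h)) := lt_of_lt_of_le one_pos (le_max_left _ _)
      positivity
    rw [← hT] at hterm hmain
    rw [← hS] at hterm
    calc (E'.card : ℝ) ≤ C1 * C2 ^ (P6 h).card * T := hmain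
      _ ≤ C1 * (C2 ^ 2 * (D * (h : ℝ) ^ (γ / 2))) * T := by gcongr
      _ = C1 * C2 ^ 2 * D * ((h : ℝ) ^ (γ / 2) * T) := by ring
      _ ≤ C1 * C2 ^ 2 * D * (324 * ((h : ℝ) ^ (1 + γ / 4))⁻¹ * S) := by gcongr
      _ = _ := by ring
  calc (E.card : ℝ) = ∑ h ∈ Icc 1 B, ((E.filter (fun p => Nat.gcd p.1 p.2 = h)).card : ℝ) := by
        exact_mod_cast card_eq_sum_card_fiberwise hmaps
    _ ≤ ∑ h ∈ Icc 1 B, C1 * C2 ^ 2 * D * 324 * (((h : ℝ) ^ (1 + γ / 4))⁻¹ * S) :=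
        sum_le_sum hone
    _ = C1 * C2 ^ 2 * D * 324 * ((∑ h ∈ Icc 1 B, ((h : ℝ) ^ (1 + γ / 4))⁻¹) * S) := by
        rw [← mul_sum, ← sum_mul]
    _ ≤ C1 * C2 ^ 2 * D * 324 * ((Z + 1) * S) := by
        have h1 : ∑ h ∈ Icc 1 B, ((h : ℝ) ^ (1 + γ / 4))⁻¹ ≤ Z := by
          rw [hZ]
          exact hsm.sum_le_tsum _ fun n _ => by positivity
        have h2 : 0 ≤ C1 * C2 ^ 2 * D * 324 := by positivity
        refine mul_le_mul_of_nonneg_left (mul_le_mul_of_nonneg_right (by linarith) hS0) h2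
    _ = _ := by ring

/-- **The models with a large height.** -/
theorem H_le {σ : ℝ} (hσ : 0 < σ) (hσ1 : σ < 1 / 6) : ∃ η C : ℝ, 0 < η ∧ 0 < C ∧
    ∀ lam : ℤ × ℤ → ℕ, (∀ q : ℤ × ℤ, IsMin q.1 q.2 → FullS q.1 q.2 → 1 ≤ lam q) →
    ∀ N K : ℝ, 1 ≤ N → 1 ≤ K →
    (({q : ℤ × ℤ | q ∈ Md lam N ∧ K * (condS q.1 q.2 : ℝ) ^ 2 < ((Hh q : ℤ) : ℝ)}.ncard : ℕ) : ℝ) ≤
      C * (K ^ (-σ) * N ^ ((2 : ℝ) / 3) + N ^ (2 / 3 - η)) := by
  classical
  obtain ⟨η, hη, C1, hC1, hup⟩ := up stmtAA (δ := 1 / 80) (by norm_num)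
  obtain ⟨C2, hC2, htail⟩ := tail_pairs' (σ := 2 * σ) (by linarith) (by linarith)
  refine ⟨min η (1 / 120), C1 + 4 * C2, lt_min hη (by norm_num), by positivity, ?_⟩
  intro lam hlam N K hN hK
  have hN0 : 0 < N := by linarith
  have hK0 : 0 < K := by linarith
  obtain ⟨W, hWd⟩ : ∃ W : ℝ, W = max 1 (Real.sqrt K / 2) := ⟨_, rfl⟩
  have hW : 1 ≤ W := by rw [hWd]; exact le_max_left _ _
  have hW0 : 0 < W := by linarith
  have hWs : W ^ (-(2 * σ)) ≤ 2 * K ^ (-σ) := by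
    have h1 : W ^ (-(2 * σ)) ≤ (Real.sqrt K / 2) ^ (-(2 * σ)) :=
      Real.rpow_le_rpow_of_nonpos (by positivity) (by rw [hWd]; exact le_max_right _ _) (by linarith)
    refine h1.trans ?_
    rw [Real.div_rpow (Real.sqrt_nonneg _) (by norm_num), Real.rpow_neg (by norm_num : (0 : ℝ) ≤ 2),
      div_inv_eq_mul, Real.sqrt_eq_rpow, ← Real.rpow_mul hK0.le, mul_comm]
    have e : 1 / 2 * -(2 * σ) = -σ := by ring
    rw [e]
    refine mul_le_mul_of_nonneg_right ?_ (by positivity)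
    calc (2 : ℝ) ^ (2 * σ) ≤ 2 ^ (1 : ℝ) :=
          Real.rpow_le_rpow_of_exponent_le (by norm_num) (by linarith)
      _ = 2 := Real.rpow_one _
  obtain ⟨B, hB⟩ : ∃ B : ℕ, B = ⌊2 * N ^ (1 / 3 + 1 / 480 : ℝ)⌋₊ := ⟨_, rfl⟩
  obtain ⟨E, hE⟩ : ∃ E : Finset (ℕ × ℕ), E = (range (B + 1) ×ˢ range (B + 1)).filter
    (fun p => Gd p ∧ (g6 p : ℝ) ≤ N ∧
      W * (g6 p : ℝ) * (min p.1 p.2 : ℕ) ≤ (nn p : ℝ) * (max p.1 p.2 : ℕ) ∧
      ((p.1 + p.2 : ℕ) : ℝ) ≤ 2 * N ^ (1 / 3 + 1 / 480 : ℝ)) := ⟨_, rfl⟩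
  have hEm : ∀ p ∈ E, Gd p ∧ (g6 p : ℝ) ≤ N ∧
      W * (g6 p : ℝ) * (min p.1 p.2 : ℕ) ≤ (nn p : ℝ) * (max p.1 p.2 : ℕ) ∧
      ((p.1 + p.2 : ℕ) : ℝ) ≤ 2 * N ^ (1 / 3 + 1 / 480 : ℝ) := by
    intro p hp
    rw [hE] at hp
    exact (mem_filter.1 hp).2
  have hcE : (E.card : ℝ) ≤ 2 * (C2 * (W ^ (-(2 * σ)) * N ^ ((2 : ℝ) / 3) +
      N ^ (2 / 3 - 1 / 120 : ℝ))) := by
    have h1 := htail N W hN hW (E.filter (fun p => p.1 ≤ p.2)) (by
      intro p hp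
      obtain ⟨hp1, hp2⟩ := mem_filter.1 hp
      obtain ⟨a1, a2, a3, a4⟩ := hEm p hp1
      rw [min_eq_left hp2, max_eq_right hp2] at a3
      exact ⟨a1, hp2, a2, a3, a4⟩)
    have h2 := htail N W hN hW ((E.filter (fun p => ¬ p.1 ≤ p.2)).image Prod.swap) (by
      intro p hp
      obtain ⟨q, hq, rfl⟩ := mem_image.1 hp
      obtain ⟨hq1, hq2⟩ := mem_filter.1 hq
      obtain ⟨a1, a2, a3, a4⟩ := hEm q hq1
      have hq3 : q.2 ≤ q.1 := by omega
      rw [min_eq_right hq3, max_eq_left hq3] at a3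
      refine ⟨Gd_swap a1, ?_, by rw [g6_swap]; exact a2, ?_, ?_⟩
      · simp only [Prod.fst_swap, Prod.snd_swap]; omega
      · rw [g6_swap, nn_swap]
        simp only [Prod.fst_swap, Prod.snd_swap]
        exact a3
      · simp only [Prod.fst_swap, Prod.snd_swap]
        rw [add_comm]
        exact a4)
    rw [card_image_of_injective _ Prod.swap_injective] at h2
    have h3 : E.card = (E.filter (fun p => p.1 ≤ p.2)).card +
        (E.filter (fun p => ¬ p.1 ≤ p.2)).card := (card_filter_add_card_filter_not _).symm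
    calc (E.card : ℝ) = (E.filter (fun p => p.1 ≤ p.2)).card +
          (E.filter (fun p => ¬ p.1 ≤ p.2)).card := by exact_mod_cast h3
      _ ≤ _ := by linarith
  have hUfin : (Up (1 / 80) N).Finite :=
    (all_finite N hN).subset fun q hq => ⟨hq.1, hq.2.1, hq.2.2.1⟩
  have hsub : {q : ℤ × ℤ | q ∈ Md lam N ∧ K * (condS q.1 q.2 : ℝ) ^ 2 < ((Hh q : ℤ) : ℝ)} ⊆
      Up (1 / 80) N ∪ ((E.image mo : Finset (ℤ × ℤ)) : Set (ℤ × ℤ)) := by
    rintro ⟨a, b⟩ ⟨⟨hmin, hf, hN'⟩, hlarge⟩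
    simp only at hmin hf hN' hlarge
    have hl1 := hlam (a, b) hmin hf
    have hcN : (condS a b : ℝ) ≤ N := by
      refine le_trans ?_ hN'
      exact_mod_cast Nat.le_mul_of_pos_left _ hl1
    rcases lt_or_ge ((condS a b : ℝ) ^ (2 + 1 / 80 : ℝ)) (4 * |(a : ℝ)| ^ 3) with hc | hc
    · exact Or.inl ⟨hmin, hf, hcN, hc⟩
    right
    obtain ⟨p, hp, he⟩ := mo_surj hmin hf
    have hH : 27 * Hh (a, b) = 4 * ((p.1 : ℤ) ^ 2 + p.1 * p.2 + (p.2 : ℤ) ^ 2) ^ 3 := by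
      have := mo_H hp
      rwa [he] at this
    have hcond : condS a b = g6 p := by
      have := mo_cond hp
      rwa [he] at this
    have ha : 3 * a = (p.1 : ℤ) ^ 2 + p.1 * p.2 + (p.2 : ℤ) ^ 2 := by
      have := mo_a hp.2.2.1
      rwa [he] at this
    rw [hcond] at hcN hlarge
    have h1 : W * (g6 p : ℝ) * (min p.1 p.2 : ℕ) ≤ (nn p : ℝ) * (max p.1 p.2 : ℕ) := by
      obtain ⟨m, hm⟩ : ∃ m : ℝ, m = ((min p.1 p.2 : ℕ) : ℝ) := ⟨_, rfl⟩
      obtain ⟨M, hM⟩ : ∃ M : ℝ, M = ((max p.1 p.2 : ℕ) : ℝ) := ⟨_, rfl⟩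
      have hM0 : 0 < M := by
        rw [hM]
        exact_mod_cast lt_max_of_lt_left hp.1
      have hm0 : 0 < m := by
        rw [hm]
        exact_mod_cast lt_min hp.1 hp.2.1
      have hmM : m ≤ M := by
        rw [hm, hM]
        exact_mod_cast min_le_max
      have e1 : 27 * ((Hh (a, b) : ℤ) : ℝ) = 4 * (m ^ 2 + m * M + M ^ 2) ^ 3 := by
        have : 27 * ((Hh (a, b) : ℤ) : ℝ) = 4 * ((p.1 : ℝ) ^ 2 + p.1 * p.2 + (p.2 : ℝ) ^ 2) ^ 3 := by
          exact_mod_cast hH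
        rw [this, hm, hM]
        rcases le_total p.1 p.2 with h | h
        · rw [min_eq_left h, max_eq_right h]
        · rw [min_eq_right h, max_eq_left h]
          ring
      have e2 : (nn p : ℝ) = m * M * (m + M) := by
        have : (nn p : ℝ) = (p.1 : ℝ) * p.2 * (p.1 + p.2) := by
          unfold nn
          push_cast
          ring
        rw [this, hm, hM]
        rcases le_total p.1 p.2 with h | h
        · rw [min_eq_left h, max_eq_right h]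
        · rw [min_eq_right h, max_eq_left h]
          ring
      obtain ⟨g, hg⟩ : ∃ g : ℝ, g = (g6 p : ℝ) := ⟨_, rfl⟩
      have hg0 : 0 < g := by rw [hg]; exact_mod_cast g6_pos p
      have hgn : g ≤ (nn p : ℝ) := by
        rw [hg]
        exact_mod_cast Nat.le_of_dvd (nn_pos' hp) (g6_dvd hp.1 hp.2.1)
      rw [← hg] at hlarge
      rw [← hg, ← hm, ← hM]
      rw [hWd, max_mul_of_nonneg _ _ hg0.le, max_mul_of_nonneg _ _ hm0.le]
      refine max_le ?_ ?_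
      · rw [one_mul]
        exact mul_le_mul hgn hmM hm0.le (by rw [e2]; positivity)
      · rw [e2]
        have h5 : m ^ 2 + m * M + M ^ 2 ≤ 3 * M ^ 2 := by nlinarith
        have h6 : (m ^ 2 + m * M + M ^ 2) ^ 3 ≤ (3 * M ^ 2) ^ 3 := pow_le_pow_left₀ (by positivity) h5 3
        have h7 : K * g ^ 2 ≤ 4 * M ^ 6 := by
          have : (3 * M ^ 2) ^ 3 = 27 * M ^ 6 := by ring
          linarith
        have h8 : (Real.sqrt K / 2 * g * m) ^ 2 ≤ (m * M * (m + M) * M) ^ 2 := by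
          have e3 : (Real.sqrt K / 2 * g * m) ^ 2 = K * g ^ 2 * m ^ 2 / 4 := by
            rw [mul_pow, mul_pow, div_pow, Real.sq_sqrt hK0.le]
            ring
          have e4 : (m * M * M * M) ^ 2 ≤ (m * M * (m + M) * M) ^ 2 := by
            refine pow_le_pow_left₀ (by positivity) ?_ 2
            refine mul_le_mul_of_nonneg_right ?_ hM0.le
            exact mul_le_mul_of_nonneg_left (by linarith) (by positivity)
          rw [e3]
          refine le_trans ?_ e4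
          have e5 : (m * M * M * M) ^ 2 = 4 * M ^ 6 * m ^ 2 / 4 := by ring
          rw [e5]
          have : 0 ≤ m ^ 2 := by positivity
          nlinarith
        exact (pow_le_pow_iff_left₀ (by positivity) (by positivity) (by norm_num)).1 h8
    have h2 : ((p.1 + p.2 : ℕ) : ℝ) ≤ 2 * N ^ (1 / 3 + 1 / 480 : ℝ) := by
      obtain ⟨s, hs⟩ : ∃ s : ℝ, s = (p.1 : ℝ) + p.2 := ⟨_, rfl⟩
      have hp1 : (0 : ℝ) < p.1 := by exact_mod_cast hp.1
      have hp2 : (0 : ℝ) < p.2 := by exact_mod_cast hp.2.1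
      have hs0 : 0 < s := by rw [hs]; positivity
      have haR : 3 * (a : ℝ) = (p.1 : ℝ) ^ 2 + p.1 * p.2 + (p.2 : ℝ) ^ 2 := by exact_mod_cast ha
      have ha1 : s ^ 2 / 4 ≤ (a : ℝ) := by
        have : 3 / 4 * s ^ 2 ≤ 3 * (a : ℝ) := by
          rw [haR, hs]
          nlinarith [sq_nonneg ((p.1 : ℝ) - p.2)]
        linarith
      have ha0 : 0 < (a : ℝ) := lt_of_lt_of_le (by positivity) ha1
      rw [abs_of_pos ha0] at hc
      have h3 : 4 * (s ^ 2 / 4) ^ 3 ≤ 4 * (a : ℝ) ^ 3 := by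
        have := pow_le_pow_left₀ (by positivity) ha1 3
        linarith
      have h4 : (condS a b : ℝ) ^ (2 + 1 / 80 : ℝ) ≤ N ^ (2 + 1 / 80 : ℝ) := by
        rw [hcond]
        exact Real.rpow_le_rpow (Nat.cast_nonneg _) hcN (by norm_num)
      have h5 : s ^ 6 ≤ 64 * N ^ (2 + 1 / 80 : ℝ) := by
        have e : 4 * (s ^ 2 / 4) ^ 3 = s ^ 6 / 16 := by ring
        rw [e] at h3
        have : 0 ≤ N ^ (2 + 1 / 80 : ℝ) := by positivity
        linarith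
      have h6 : (2 * N ^ (1 / 3 + 1 / 480 : ℝ)) ^ 6 = 64 * N ^ (2 + 1 / 80 : ℝ) := by
        rw [mul_pow, ← Real.rpow_natCast (N ^ (1 / 3 + 1 / 480 : ℝ)) 6, ← Real.rpow_mul hN0.le]
        norm_num
      rw [← h6] at h5
      have h7 := (pow_le_pow_iff_left₀ hs0.le (by positivity) (by norm_num : 6 ≠ 0)).1 h5
      rw [hs] at h7
      push_cast
      exact h7
    rw [mem_coe, mem_image]
    refine ⟨p, ?_, he⟩
    rw [hE, mem_filter, mem_product, mem_range, mem_range]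
    have h3 : p.1 + p.2 ≤ B := by rw [hB]; exact Nat.le_floor h2
    exact ⟨⟨by omega, by omega⟩, hp, hcN, h1, h2⟩
  have h1 := Set.ncard_le_ncard hsub (hUfin.union (Finset.finite_toSet _))
  have h2 := Set.ncard_union_le (Up (1 / 80) N) ((E.image mo : Finset (ℤ × ℤ)) : Set (ℤ × ℤ))
  rw [Set.ncard_coe_finset] at h2
  have h3 : (E.image mo).card ≤ E.card := card_image_le
  have h4 := hup N hN
  have h5 : (({q : ℤ × ℤ | q ∈ Md lam N ∧ K * (condS q.1 q.2 : ℝ) ^ 2 < ((Hh q : ℤ) : ℝ)}.ncard : ℕ) : ℝ)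
      ≤ (Up (1 / 80) N).ncard + E.card := by
    exact_mod_cast (h1.trans h2).trans (Nat.add_le_add_left h3 _)
  have e1 : N ^ (2 / 3 - η) ≤ N ^ (2 / 3 - min η (1 / 120)) :=
    Real.rpow_le_rpow_of_exponent_le hN (by linarith [min_le_left η (1 / 120)])
  have e2 : N ^ (2 / 3 - 1 / 120 : ℝ) ≤ N ^ (2 / 3 - min η (1 / 120)) :=
    Real.rpow_le_rpow_of_exponent_le hN (by linarith [min_le_right η (1 / 120)])
  have e3 : 0 ≤ K ^ (-σ) * N ^ ((2 : ℝ) / 3) := by positivity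
  have e4 : 0 ≤ N ^ (2 / 3 - min η (1 / 120)) := by positivity
  have e5 : W ^ (-(2 * σ)) * N ^ ((2 : ℝ) / 3) ≤ 2 * K ^ (-σ) * N ^ ((2 : ℝ) / 3) :=
    mul_le_mul_of_nonneg_right hWs (by positivity)
  calc _ ≤ C1 * N ^ (2 / 3 - η) + 2 * (C2 * (W ^ (-(2 * σ)) * N ^ ((2 : ℝ) / 3) +
        N ^ (2 / 3 - 1 / 120 : ℝ))) := h5.trans (add_le_add h4 hcE)
    _ ≤ C1 * N ^ (2 / 3 - min η (1 / 120)) + 2 * (C2 * (2 * K ^ (-σ) * N ^ ((2 : ℝ) / 3) +
        N ^ (2 / 3 - min η (1 / 120)))) := by gcongr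
    _ ≤ _ := by
        have f1 : 0 ≤ C1 * (K ^ (-σ) * N ^ ((2 : ℝ) / 3)) := by positivity
        have f2 : 0 ≤ C2 * N ^ (2 / 3 - min η (1 / 120)) := by positivity
        linarith

end Pool.Agent.Y679.Jl
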