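import Pool.Agent.Y679.Jl.Tri
import Pool.Agent.Y679.Lim

/-! **The density of a set given by local conditions, in triangles** (helper679). -/

set_option autoImplicit false

namespace Pool.Agent.Y679.Jl

open Finset Filter Topology Pool.Agent.TH498.AR Pool.Agent.Y679.Par

/-- bad pairs in the square -/
theorem bad_square {η y : ℝ} (hη : 0 < η) (hy : 1 ≤ y) {P0 : ℕ} (hP0 : 0 < P0)
    (E : Finset (ℕ × ℕ)) (hE : ∀ p ∈ E, 0 < p.1 ∧ p.1 ≤ p.2 ∧ (p.2 : ℝ) ≤ y ∧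
      ∃ q : ℕ, q.Prime ∧ P0 < q ∧ ((q ∣ p.1 ∧ q ∣ p.2) ∨ q ^ 2 ∣ nn p)) :
    (E.card : ℝ) ≤ (8 * Real.sqrt η + 20 / (η * P0)) * y ^ 2 := by
  classical
  have hP0' : (0 : ℝ) < P0 := by exact_mod_cast hP0
  have hV : ∀ p ∈ E, p ∈ VV (2 * y) := by
    intro p hp
    obtain ⟨h1, h2, h3, -⟩ := hE p hp
    refine ⟨h1, h2, ?_⟩
    have a1 : (0 : ℝ) < p.1 := by exact_mod_cast h1
    have a2 : (p.1 : ℝ) ≤ p.2 := by exact_mod_cast h2
    calc (p.1 : ℝ) * p.2 * (p.1 + p.2) ≤ y * y * (y + y) := by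
          have b1 : (p.1 : ℝ) ≤ y := a2.trans h3
          have b2 : (p.1 : ℝ) * p.2 ≤ y * y := mul_le_mul b1 h3 (by linarith) (by linarith)
          exact mul_le_mul b2 (by linarith) (by linarith) (by positivity)
      _ ≤ (2 * y) ^ 3 := by
          have : 0 ≤ y ^ 3 := by positivity
          nlinarith
  have h1 := cusp_count hη (by linarith : (1 : ℝ) ≤ 2 * y)
    (E.filter (fun p => (p.1 : ℝ) < η * (2 * y))) (fun p hp => by
      obtain ⟨a, b⟩ := mem_filter.1 hp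
      exact ⟨hV p a, b⟩)
  have h2 := bad_count hη (by linarith : (1 : ℝ) ≤ 2 * y) hP0
    (E.filter (fun p => ¬ (p.1 : ℝ) < η * (2 * y))) (fun p hp => by
      obtain ⟨a, b⟩ := mem_filter.1 hp
      exact ⟨hV p a, not_lt.1 b, (hE p a).2.2.2⟩)
  have h3 : (E.card : ℝ) = ((E.filter (fun p => (p.1 : ℝ) < η * (2 * y))).card : ℝ) +
      ((E.filter (fun p => ¬ (p.1 : ℝ) < η * (2 * y))).card : ℝ) := by
    exact_mod_cast (card_filter_add_card_filter_not _).symm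
  rw [h3]
  have e : (8 * Real.sqrt η + 20 / (η * P0)) * y ^ 2 =
      2 * Real.sqrt η * (2 * y) ^ 2 + 5 * (2 * y) ^ 2 / (η * P0) := by
    field_simp
    ring
  rw [e]
  linarith

theorem Tr_approx {S : Set (ℕ × ℕ)} (hS : IsLoc S) {ε : ℝ}
    (hε : 0 < ε) : ∃ ρ C : ℝ, 0 ≤ ρ ∧ ∀ α β : ℝ, 0 ≤ α → α ≤ β → β ≤ 1 → ∀ y : ℝ, 1 ≤ y →
    |((Tr S α β y).ncard : ℝ) - ρ * (β - α) * y ^ 2| ≤ ε * y ^ 2 + C * y := by
  classical
  -- the parameters
  obtain ⟨η, hη⟩ : ∃ η : ℝ, η = (ε / 16) ^ 2 := ⟨_, rfl⟩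
  have hη0 : 0 < η := by rw [hη]; positivity
  have hηs : 8 * Real.sqrt η ≤ ε / 2 := by
    rw [hη, Real.sqrt_sq (by positivity)]
    linarith
  obtain ⟨P0, hP0, Q, hQ0, T, hT, hT1, hT2⟩ := hS (max 1 ⌈40 / (η * ε)⌉₊)
  have hP01 : 1 ≤ P0 := (le_max_left _ _).trans hP0
  have hP0pos : (0 : ℝ) < P0 := by exact_mod_cast (by omega : 0 < P0)
  have hQ0' : (0 : ℝ) < Q := by exact_mod_cast hQ0
  have hP0e : 20 / (η * P0) ≤ ε / 2 := by
    have h1 : 40 / (η * ε) ≤ P0 := by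
      refine (Nat.le_ceil _).trans ?_
      exact_mod_cast (le_max_right _ _).trans hP0
    rw [div_le_iff₀ (by positivity)] at h1
    rw [div_le_iff₀ (by positivity)]
    nlinarith
  refine ⟨(T.card : ℝ) / (2 * (Q : ℝ) ^ 2), 20 * T.card + 1, by positivity,
    fun α β hα hαβ hβ y hy => ?_⟩
  have hy0 : 0 < y := by linarith
  have hNfin : (Tr S α β y).Finite := Tr_fin S hβ y
  set NF : Finset (ℕ × ℕ) := hNfin.toFinset with hNF
  set UF : Finset (ℕ × ℕ) := T.biUnion (fun t => (Tr_fin (Rc Q t.1 t.2) (α := α) hβ y).toFinset)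
    with hUF
  have hNc : ((Tr S α β y).ncard : ℝ) = (NF.card : ℝ) := by
    rw [hNF, Set.ncard_eq_toFinset_card _ hNfin]
  have hTr : ∀ t ∈ T, t.1 < Q ∧ t.2 < Q := by
    intro t ht
    have := mem_product.1 (hT ht)
    exact ⟨mem_range.1 this.1, mem_range.1 this.2⟩
  have hUc : (UF.card : ℝ) = ∑ t ∈ T, ((Tr (Rc Q t.1 t.2) α β y).ncard : ℝ) := by
    rw [hUF, card_biUnion]
    · push_cast
      refine sum_congr rfl fun t _ => ?_
      exact_mod_cast (Set.ncard_eq_toFinset_card _ (Tr_fin _ hβ y)).symm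
    · intro t ht t' ht' hne
      rw [Function.onFun, disjoint_left]
      intro p hp hp'
      rw [Set.Finite.mem_toFinset] at hp hp'
      apply hne
      have u1 := hTr t ht
      have u2 := hTr t' ht'
      have v1 := hp.1.1.symm.trans hp'.1.1
      have v2 := hp.1.2.symm.trans hp'.1.2
      rw [Nat.mod_eq_of_lt u1.1, Nat.mod_eq_of_lt u2.1] at v1
      rw [Nat.mod_eq_of_lt u1.2, Nat.mod_eq_of_lt u2.2] at v2
      exact Prod.ext v1 v2
  have hU : |(UF.card : ℝ) - (T.card : ℝ) / (2 * (Q : ℝ) ^ 2) * (β - α) * y ^ 2| ≤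
      20 * T.card * y := by
    have e : (T.card : ℝ) / (2 * (Q : ℝ) ^ 2) * (β - α) * y ^ 2 =
        ∑ _t ∈ T, (β - α) * y ^ 2 / (2 * (Q : ℝ) ^ 2) := by
      rw [sum_const, nsmul_eq_mul]
      ring
    rw [hUc, e, ← sum_sub_distrib]
    refine (abs_sum_le_sum_abs _ _).trans ?_
    refine (sum_le_sum fun t _ => Tr_class hα hαβ hβ hQ0 t.1 t.2 hy).trans ?_
    rw [sum_const, nsmul_eq_mul]
    exact le_of_eq (by ring)
  -- the difference
  have hsub : NF ⊆ UF := by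
    intro p hp
    rw [hNF, Set.Finite.mem_toFinset] at hp
    obtain ⟨a1, a2, a3, a4, a5⟩ := hp
    rw [hUF, mem_biUnion]
    refine ⟨(p.1 % Q, p.2 % Q), hT1 p a1, ?_⟩
    rw [Set.Finite.mem_toFinset]
    exact ⟨⟨(Nat.mod_mod _ _).symm, (Nat.mod_mod _ _).symm⟩, a2, a3, a4, a5⟩
  have hz : ((UF.filter (fun p => p.1 = 0)).card : ℝ) ≤ y := by
    have h1 : (UF.filter (fun p => p.1 = 0)).card ≤ (Ioc 0 ⌊y⌋₊).card := by
      refine card_le_card_of_injOn (fun p => p.2) ?_ ?_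
      · intro p hp
        obtain ⟨hp1, -⟩ := mem_filter.1 hp
        rw [hUF, mem_biUnion] at hp1
        obtain ⟨t, -, hpt⟩ := hp1
        rw [Set.Finite.mem_toFinset] at hpt
        obtain ⟨-, a1, a2, -⟩ := hpt
        exact mem_coe.2 (mem_Ioc.2 ⟨a1, Nat.le_floor a2⟩)
      · intro p hp p' hp' h
        have h1 := (mem_filter.1 hp).2
        have h2 := (mem_filter.1 hp').2
        exact Prod.ext (h1.trans h2.symm) h
    rw [Nat.card_Ioc, Nat.sub_zero] at h1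
    calc ((UF.filter (fun p => p.1 = 0)).card : ℝ) ≤ (⌊y⌋₊ : ℝ) := by exact_mod_cast h1
      _ ≤ y := Nat.floor_le hy0.le
  have hd2 : (((UF \ NF).filter (fun p => ¬ p.1 = 0)).card : ℝ) ≤
      (8 * Real.sqrt η + 20 / (η * P0)) * y ^ 2 := by
    refine bad_square hη0 hy (by omega) _ fun p hp => ?_
    obtain ⟨hp', hp0⟩ := mem_filter.1 hp
    obtain ⟨hpU, hpN⟩ := Finset.mem_sdiff.1 hp'
    rw [hUF, mem_biUnion] at hpU
    obtain ⟨t, ht, hpt⟩ := hpU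
    rw [Set.Finite.mem_toFinset] at hpt
    obtain ⟨⟨a5, a6⟩, a1, a2, a3, a4⟩ := hpt
    have hb0 : (0 : ℝ) < p.2 := by exact_mod_cast a1
    have h7 : (p.1 : ℝ) < p.2 := lt_of_lt_of_le a4 (by nlinarith)
    have h8 : p.1 < p.2 := by exact_mod_cast h7
    refine ⟨by omega, h8.le, a2, ?_⟩
    by_contra hcon
    push Not at hcon
    apply hpN
    rw [hNF, Set.Finite.mem_toFinset]
    obtain ⟨u1, u2⟩ := hTr t ht
    rw [Nat.mod_eq_of_lt u1] at a5
    rw [Nat.mod_eq_of_lt u2] at a6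
    refine ⟨hT2 p (by omega) a1 (by rw [a5, a6]; exact ht) ?_, a1, a2, a3, a4⟩
    intro q hq hqP
    obtain ⟨c1, c2⟩ := hcon q hq hqP
    exact ⟨fun h => c1 h.1 h.2, c2⟩
  have hd3 : (UF.card : ℝ) ≤ NF.card + (((UF \ NF).filter (fun p => ¬ p.1 = 0)).card +
      (UF.filter (fun p => p.1 = 0)).card) := by
    have h1 : UF ⊆ NF ∪ ((UF \ NF).filter (fun p => ¬ p.1 = 0) ∪ UF.filter (fun p => p.1 = 0)) := by
      intro p hp
      by_cases h0 : p.1 = 0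
      · exact mem_union_right _ (mem_union_right _ (mem_filter.2 ⟨hp, h0⟩))
      · by_cases hN : p ∈ NF
        · exact mem_union_left _ hN
        · exact mem_union_right _ (mem_union_left _ (mem_filter.2 ⟨Finset.mem_sdiff.2 ⟨hp, hN⟩, h0⟩))
    have h2 := (card_le_card h1).trans ((card_union_le _ _).trans
      (Nat.add_le_add_left (card_union_le _ _) _))
    exact_mod_cast h2
  have hd4 : (NF.card : ℝ) ≤ UF.card := by exact_mod_cast card_le_card hsub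
  rw [hNc]
  have h6 : (8 * Real.sqrt η + 20 / (η * P0)) * y ^ 2 ≤ ε * y ^ 2 :=
    mul_le_mul_of_nonneg_right (by linarith) (by positivity)
  have hU' := abs_le.1 hU
  rw [abs_le]
  constructor
  · linarith
  · have : 0 ≤ ε * y ^ 2 := by positivity
    have : 0 ≤ (T.card : ℝ) * y := by positivity
    linarith

theorem Tr_ev {S : Set (ℕ × ℕ)} (hS : IsLoc S) {ε : ℝ} (hε : 0 < ε) : ∃ ρ : ℝ, 0 ≤ ρ ∧
    ∀ α β : ℝ, 0 ≤ α → α ≤ β → β ≤ 1 →
    ∀ᶠ y in atTop, |((Tr S α β y).ncard : ℝ) / y ^ 2 - ρ * (β - α)| ≤ ε := by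
  obtain ⟨ρ, C, hρ, h⟩ := Tr_approx hS (ε := ε / 2) (by positivity)
  refine ⟨ρ, hρ, fun α β h1 h2 h3 => ?_⟩
  filter_upwards [eventually_ge_atTop (max 1 (2 * |C| / ε))] with x hx
  have hx1 : 1 ≤ x := (le_max_left _ _).trans hx
  have hx2 : 2 * |C| / ε ≤ x := (le_max_right _ _).trans hx
  have hx0 : 0 < x := by linarith
  have h1 := h α β h1 h2 h3 x hx1
  have e : ((Tr S α β x).ncard : ℝ) / x ^ 2 - ρ * (β - α) =
      (((Tr S α β x).ncard : ℝ) - ρ * (β - α) * x ^ 2) / x ^ 2 := by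
    field_simp
  rw [e, abs_div, abs_of_pos (by positivity : 0 < x ^ 2), div_le_iff₀ (by positivity)]
  rw [div_le_iff₀ hε] at hx2
  have h2 : C * x ≤ ε / 2 * x ^ 2 := by
    have := le_abs_self C
    nlinarith
  linarith

/-- **The density in triangles.** -/
theorem Tr_limit {S : Set (ℕ × ℕ)} (hS : IsLoc S) : ∃ δ : ℝ, 0 ≤ δ ∧
    ∀ α β : ℝ, 0 ≤ α → α ≤ β → β ≤ 1 →
    Tendsto (fun y : ℝ => ((Tr S α β y).ncard : ℝ) / y ^ 2) atTop (𝓝 (δ * (β - α))) := by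
  have hex : ∀ α β : ℝ, 0 ≤ α → α ≤ β → β ≤ 1 → ∃ l : ℝ,
      Tendsto (fun y : ℝ => ((Tr S α β y).ncard : ℝ) / y ^ 2) atTop (𝓝 l) := by
    intro α β h1 h2 h3
    refine tendsto_of_approx fun ε hε => ?_
    obtain ⟨ρ, -, h⟩ := Tr_ev hS hε
    exact ⟨ρ * (β - α), h α β h1 h2 h3⟩
  have key : ∀ α β : ℝ, 0 ≤ α → α ≤ β → β ≤ 1 → ∀ l : ℝ,
      Tendsto (fun y : ℝ => ((Tr S α β y).ncard : ℝ) / y ^ 2) atTop (𝓝 l) →
      ∀ ρ ε : ℝ, (∀ᶠ y in atTop, |((Tr S α β y).ncard : ℝ) / y ^ 2 - ρ * (β - α)| ≤ ε) →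
      |l - ρ * (β - α)| ≤ ε := by
    intro α β h1 h2 h3 l hl ρ ε h
    exact le_of_tendsto (hl.sub_const _).abs h
  obtain ⟨δ, hδ⟩ := hex 0 1 le_rfl zero_le_one le_rfl
  refine ⟨δ, ge_of_tendsto hδ ?_, fun α β h1 h2 h3 => ?_⟩
  · filter_upwards with y
    positivity
  obtain ⟨l, hl⟩ := hex α β h1 h2 h3
  have hle : ∀ ε : ℝ, 0 < ε → |l - δ * (β - α)| ≤ 0 + ε := by
    intro ε hε
    obtain ⟨ρ, -, h⟩ := Tr_ev hS (ε := ε / 2) (by positivity)
    have k1 := key α β h1 h2 h3 l hl ρ (ε / 2) (h α β h1 h2 h3)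
    have k2 := key 0 1 le_rfl zero_le_one le_rfl δ hδ ρ (ε / 2) (h 0 1 le_rfl zero_le_one le_rfl)
    rw [sub_zero, mul_one] at k2
    have e : l - δ * (β - α) = (l - ρ * (β - α)) - (δ - ρ) * (β - α) := by ring
    rw [e]
    have k3 : |(δ - ρ) * (β - α)| ≤ ε / 2 := by
      rw [abs_mul, abs_of_nonneg (by linarith : 0 ≤ β - α)]
      have : 0 ≤ |δ - ρ| := abs_nonneg _
      nlinarith
    have := abs_sub (l - ρ * (β - α)) ((δ - ρ) * (β - α))
    linarith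
  have h0 := le_of_forall_pos_le_add hle
  have : l = δ * (β - α) := by
    have := abs_nonpos_iff.1 h0
    linarith
  rw [← this]
  exact hl

end Pool.Agent.Y679.Jl
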