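import Mathlib

/-! **The integral of `(s (1 + s)) ^ (-2/3)`** (helper679). -/

set_option autoImplicit false

namespace Pool.Agent.Y679.Jl

open Finset Filter Topology MeasureTheory intervalIntegral

/-- the density -/
noncomputable def gd (s : ℝ) : ℝ := (s * (1 + s)) ^ (-(2 / 3) : ℝ)

/-- its square root -/
noncomputable def cd (s : ℝ) : ℝ := (s * (1 + s)) ^ (-(1 / 3) : ℝ)

theorem cd_sq {s : ℝ} (hs : 0 < s) : cd s ^ 2 = gd s := by
  unfold cd gd
  rw [← Real.rpow_natCast, ← Real.rpow_mul (by positivity)]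
  norm_num

theorem cd_cube {s : ℝ} (hs : 0 < s) : cd s ^ 3 * (s * (1 + s)) = 1 := by
  unfold cd
  have h0 : 0 < s * (1 + s) := by positivity
  rw [← Real.rpow_natCast, ← Real.rpow_mul h0.le]
  norm_num
  rw [Real.rpow_neg_one]
  field_simp

theorem cd_pos {s : ℝ} (hs : 0 < s) : 0 < cd s := by
  unfold cd
  positivity

theorem gd_nonneg {s : ℝ} (hs : 0 ≤ s) : 0 ≤ gd s := by
  unfold gd
  positivity

theorem gd_pos {s : ℝ} (hs : 0 < s) : 0 < gd s := by
  unfold gd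
  positivity

theorem gd_anti {s t : ℝ} (hs : 0 < s) (h : s ≤ t) : gd t ≤ gd s := by
  unfold gd
  refine Real.rpow_le_rpow_of_nonpos (by positivity) ?_ (by norm_num)
  exact mul_le_mul h (by linarith) (by positivity) (by linarith)

theorem gd_le {s : ℝ} (hs : 0 < s) : gd s ≤ s ^ (-(2 / 3) : ℝ) := by
  unfold gd
  refine Real.rpow_le_rpow_of_nonpos hs ?_ (by norm_num)
  nlinarith

theorem gd_meas : Measurable gd := by
  unfold gd
  fun_prop

theorem gd_int {a b : ℝ} (ha : 0 ≤ a) (hab : a ≤ b) : IntervalIntegrable gd volume a b := by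
  have h1 : IntervalIntegrable (fun x : ℝ => x ^ (-(2 / 3) : ℝ)) volume a b :=
    intervalIntegral.intervalIntegrable_rpow' (by norm_num)
  refine h1.mono_fun gd_meas.aestronglyMeasurable ?_
  rw [Set.uIoc_of_le hab]
  filter_upwards [ae_restrict_mem measurableSet_Ioc] with x hx
  have hx0 : 0 < x := lt_of_le_of_lt ha hx.1
  rw [Real.norm_of_nonneg (gd_nonneg hx0.le), Real.norm_of_nonneg (by positivity)]
  exact gd_le hx0

/-- the integral -/
noncomputable def Gi (τ : ℝ) : ℝ := ∫ s in τ..1, gd s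

theorem Gi_sub {σ τ : ℝ} (h0 : 0 ≤ σ) (h1 : σ ≤ τ) (h2 : τ ≤ 1) :
    Gi σ = (∫ s in σ..τ, gd s) + Gi τ := by
  unfold Gi
  exact (integral_add_adjacent_intervals (gd_int h0 h1) (gd_int (h0.trans h1) h2)).symm

theorem Gi_anti {σ τ : ℝ} (h0 : 0 ≤ σ) (h1 : σ ≤ τ) (h2 : τ ≤ 1) : Gi τ ≤ Gi σ := by
  rw [Gi_sub h0 h1 h2]
  have : 0 ≤ ∫ s in σ..τ, gd s :=
    intervalIntegral.integral_nonneg h1 fun s hs => gd_nonneg (h0.trans hs.1)
  linarith

theorem Gi_one : Gi 1 = 0 := by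
  unfold Gi
  exact integral_same

theorem Gi_nonneg {τ : ℝ} (h0 : 0 ≤ τ) (h2 : τ ≤ 1) : 0 ≤ Gi τ := by
  rw [← Gi_one]
  exact Gi_anti h0 h2 le_rfl

theorem Gi_zero {τ : ℝ} (h0 : 0 < τ) (h2 : τ ≤ 1) : Gi 0 ≤ Gi τ + 3 * τ ^ (1 / 3 : ℝ) := by
  rw [Gi_sub le_rfl h0.le h2]
  have h3 : ∫ s in (0 : ℝ)..τ, gd s ≤ ∫ s in (0 : ℝ)..τ, s ^ (-(2 / 3) : ℝ) := by
    refine intervalIntegral.integral_mono_on_of_le_Ioo h0.le (gd_int le_rfl h0.le)
      (intervalIntegral.intervalIntegrable_rpow' (by norm_num)) fun s hs => gd_le hs.1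
  have h4 : ∫ s in (0 : ℝ)..τ, s ^ (-(2 / 3) : ℝ) = 3 * τ ^ (1 / 3 : ℝ) := by
    rw [integral_rpow (Or.inl (by norm_num)), Real.zero_rpow (by norm_num)]
    norm_num
    ring
  linarith

theorem Gi_zero_pos : 0 < Gi 0 := by
  have h1 : Gi 0 = (∫ s in (0 : ℝ)..(1 / 2), gd s) + Gi (1 / 2) :=
    Gi_sub le_rfl (by norm_num) (by norm_num)
  have h2 : 0 ≤ ∫ s in (0 : ℝ)..(1 / 2), gd s :=
    intervalIntegral.integral_nonneg (by norm_num) fun s hs => gd_nonneg hs.1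
  have h3 : 0 < Gi (1 / 2) := by
    unfold Gi
    have h4 : ∫ _s in (1 / 2 : ℝ)..1, gd 1 ≤ ∫ s in (1 / 2 : ℝ)..1, gd s := by
      refine intervalIntegral.integral_mono_on (by norm_num) (by simp)
        (gd_int (by norm_num) (by norm_num)) fun s hs => ?_
      exact gd_anti (by linarith [hs.1]) hs.2
    rw [intervalIntegral.integral_const] at h4
    have h5 := gd_pos one_pos
    have h6 : 0 < (1 - 1 / 2 : ℝ) • gd 1 := by
      rw [smul_eq_mul]
      positivity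
    linarith
  linarith

/-- the lower and the upper sums -/
theorem Gi_riem {τ : ℝ} (h0 : 0 < τ) (h1 : τ ≤ 1) {n : ℕ} (hn : 0 < n) :
    ∑ i ∈ range n, (1 - τ) / n * gd (τ + ((i + 1 : ℕ) : ℝ) * ((1 - τ) / n)) ≤ Gi τ ∧
    Gi τ ≤ ∑ i ∈ range n, (1 - τ) / n * gd (τ + (i : ℝ) * ((1 - τ) / n)) ∧
    ∑ i ∈ range n, (1 - τ) / n * gd (τ + (i : ℝ) * ((1 - τ) / n)) ≤
      ∑ i ∈ range n, (1 - τ) / n * gd (τ + ((i + 1 : ℕ) : ℝ) * ((1 - τ) / n)) + gd τ / n := by
  have hn0 : (0 : ℝ) < n := by exact_mod_cast hn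
  obtain ⟨h, hh⟩ : ∃ h : ℝ, h = (1 - τ) / n := ⟨_, rfl⟩
  have hh0 : 0 ≤ h := by rw [hh]; exact div_nonneg (by linarith) hn0.le
  have hh1 : h ≤ 1 / n := by rw [hh]; exact div_le_div_of_nonneg_right (by linarith) hn0.le
  have hhn : τ + (n : ℝ) * h = 1 := by rw [hh]; field_simp; ring
  rw [← hh]
  obtain ⟨a, ha⟩ : ∃ a : ℕ → ℝ, a = fun i : ℕ => τ + (i : ℝ) * h := ⟨_, rfl⟩
  have ha' : ∀ i : ℕ, τ + (i : ℝ) * h = a i := fun i => by rw [ha]
  have hstep : ∀ i : ℕ, a (i + 1) = a i + h := fun i => by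
    rw [ha]; push_cast; ring
  have hpos : ∀ i, 0 < a i := fun i => by
    rw [ha]
    have : 0 ≤ (i : ℝ) * h := mul_nonneg (Nat.cast_nonneg _) hh0
    simp only
    linarith
  have hle : ∀ i, a i ≤ a (i + 1) := fun i => by rw [hstep]; linarith
  have hsum : ∑ i ∈ range n, ∫ s in a i..a (i + 1), gd s = Gi τ := by
    rw [intervalIntegral.sum_integral_adjacent_intervals fun i _ => gd_int (hpos i).le (hle i)]
    unfold Gi
    congr 1
    · rw [ha]; simp
    · rw [ha]; exact hhn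
  simp only [ha']
  refine ⟨?_, ?_, ?_⟩
  · rw [← hsum]
    refine sum_le_sum fun i _ => ?_
    have h4 : ∫ _s in a i..a (i + 1), gd (a (i + 1)) ≤ ∫ s in a i..a (i + 1), gd s := by
      refine intervalIntegral.integral_mono_on (hle i) (by simp) (gd_int (hpos i).le (hle i))
        fun s hs => ?_
      exact gd_anti (lt_of_lt_of_le (hpos i) hs.1) hs.2
    rw [intervalIntegral.integral_const, smul_eq_mul, hstep, add_sub_cancel_left] at h4
    rw [hstep]
    exact h4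
  · rw [← hsum]
    refine sum_le_sum fun i _ => ?_
    have h4 : ∫ s in a i..a (i + 1), gd s ≤ ∫ _s in a i..a (i + 1), gd (a i) := by
      refine intervalIntegral.integral_mono_on (hle i) (gd_int (hpos i).le (hle i)) (by simp)
        fun s hs => ?_
      exact gd_anti (hpos i) hs.1
    rw [intervalIntegral.integral_const, smul_eq_mul, hstep, add_sub_cancel_left] at h4
    rw [hstep]
    exact h4
  · rw [← mul_sum, ← mul_sum]
    have h5 : ∑ i ∈ range n, gd (a i) + gd (a n) = ∑ i ∈ range n, gd (a (i + 1)) + gd (a 0) := by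
      rw [← Finset.sum_range_succ, Finset.sum_range_succ']
    have h6 : a 0 = τ := by rw [ha]; simp
    have h7 : 0 ≤ gd (a n) := gd_nonneg (hpos n).le
    have h8 : ∑ i ∈ range n, gd (a i) ≤ ∑ i ∈ range n, gd (a (i + 1)) + gd τ := by
      rw [h6] at h5
      linarith
    have h9 : h * gd τ ≤ gd τ / n := by
      calc h * gd τ ≤ 1 / n * gd τ := mul_le_mul_of_nonneg_right hh1 (gd_nonneg h0.le)
        _ = _ := by ring
    have := mul_le_mul_of_nonneg_left h8 hh0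
    rw [mul_add] at this
    linarith

end Pool.Agent.Y679.Jl
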