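import Pool.Agent.Y679.Jl.Reg
import Pool.Agent.Y679.Dw

/-! **The law of the ratio** (helper679). -/

set_option autoImplicit false

namespace Pool.Agent.Y679.Jl

open Finset Filter Topology Pool.Agent.TH498.AR Pool.Agent.Y679.Par

theorem Tr_scale {S : Set (ℕ × ℕ)} {δ α β c : ℝ} (hc : 0 < c)
    (h : Tendsto (fun y : ℝ => ((Tr S α β y).ncard : ℝ) / y ^ 2) atTop (𝓝 (δ * (β - α)))) :
    Tendsto (fun x : ℝ => ((Tr S α β (c * x)).ncard : ℝ) / x ^ 2) atTop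
      (𝓝 (δ * (β - α) * c ^ 2)) := by
  have h1 := (h.comp (tendsto_id.const_mul_atTop hc)).mul_const (c ^ 2)
  refine h1.congr' ?_
  filter_upwards [eventually_gt_atTop 0] with x hx
  simp only [Function.comp_apply, id_eq]
  field_simp

/-- the law, `τ > 0` -/
theorem law_pos {S : Set (ℕ × ℕ)} {δ : ℝ} (hδ : 0 ≤ δ) (h : ∀ α β : ℝ, 0 ≤ α → α ≤ β → β ≤ 1 →
    Tendsto (fun y : ℝ => ((Tr S α β y).ncard : ℝ) / y ^ 2) atTop (𝓝 (δ * (β - α))))
    {τ : ℝ} (h0 : 0 < τ) (h1 : τ ≤ 1) :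
    Tendsto (fun x : ℝ => ((Sx (Th S τ) x).ncard : ℝ) / x ^ 2) atTop (𝓝 (δ * Gi τ)) := by
  -- the partition
  have key : ∀ n : ℕ, 0 < n → ∃ U L : ℝ → ℝ, ∃ u l : ℝ, Tendsto U atTop (𝓝 (δ * u)) ∧
      Tendsto L atTop (𝓝 (δ * l)) ∧ l ≤ Gi τ ∧ Gi τ ≤ u ∧ u ≤ l + gd τ / n ∧
      ∀ x : ℝ, 0 < x → ((Sx (Th S τ) x).ncard : ℝ) / x ^ 2 ≤ U x ∧
        L x ≤ ((Sx (Th S τ) x).ncard : ℝ) / x ^ 2 := by
    intro n hn
    have hn0 : (0 : ℝ) < n := by exact_mod_cast hn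
    obtain ⟨r1, r2, r3⟩ := Gi_riem h0 h1 hn
    obtain ⟨s, hs⟩ : ∃ s : ℝ, s = (1 - τ) / n := ⟨_, rfl⟩
    have hs0 : 0 ≤ s := by rw [hs]; exact div_nonneg (by linarith) hn0.le
    have hsn : τ + (n : ℝ) * s = 1 := by rw [hs]; field_simp; ring
    rw [← hs] at r1 r2 r3
    obtain ⟨f, hf⟩ : ∃ f : ℕ → ℝ, f = fun i : ℕ => τ + (i : ℝ) * s := ⟨_, rfl⟩
    have hf' : ∀ i : ℕ, τ + (i : ℝ) * s = f i := fun i => by rw [hf]
    simp only [hf'] at r1 r2 r3
    have hmono : Monotone f := by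
      intro i j hij
      rw [hf]
      have : (i : ℝ) ≤ j := by exact_mod_cast hij
      have := mul_le_mul_of_nonneg_right this hs0
      simp only
      linarith
    have hf0 : f 0 = τ := by rw [hf]; simp
    have hfn : f n = 1 := by rw [hf]; exact hsn
    have hpos : ∀ i, 0 < f i := fun i => lt_of_lt_of_le h0 (by rw [← hf0]; exact hmono (Nat.zero_le _))
    have hstep : ∀ i, f (i + 1) - f i = s := fun i => by rw [hf]; push_cast; ring
    have hle1 : ∀ i < n, f (i + 1) ≤ 1 := fun i hi => by rw [← hfn]; exact hmono (by omega)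
    refine ⟨fun x => ∑ i ∈ range n, ((Tr S (f i) (f (i + 1)) (cd (f i) * x)).ncard : ℝ) / x ^ 2 +
      x⁻¹, fun x => ∑ i ∈ range n, ((Tr S (f i) (f (i + 1)) (cd (f (i + 1)) * x)).ncard : ℝ) / x ^ 2,
      ∑ i ∈ range n, s * gd (f i), ∑ i ∈ range n, s * gd (f (i + 1)), ?_, ?_, r1, r2, r3, ?_⟩
    · have e : δ * ∑ i ∈ range n, s * gd (f i) =
          ∑ i ∈ range n, δ * (f (i + 1) - f i) * cd (f i) ^ 2 + 0 := by
        rw [add_zero, mul_sum]
        refine sum_congr rfl fun i _ => ?_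
        rw [hstep, cd_sq (hpos i)]
        ring
      rw [e]
      refine Tendsto.add (tendsto_finsetSum _ fun i hi => ?_) tendsto_inv_atTop_zero
      exact Tr_scale (cd_pos (hpos i)) (h _ _ (hpos i).le (hmono (by omega))
        (hle1 i (mem_range.1 hi)))
    · have e : δ * ∑ i ∈ range n, s * gd (f (i + 1)) =
          ∑ i ∈ range n, δ * (f (i + 1) - f i) * cd (f (i + 1)) ^ 2 := by
        rw [mul_sum]
        refine sum_congr rfl fun i _ => ?_
        rw [hstep, cd_sq (hpos _)]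
        ring
      rw [e]
      refine tendsto_finsetSum _ fun i hi => ?_
      exact Tr_scale (cd_pos (hpos _)) (h _ _ (hpos i).le (hmono (by omega))
        (hle1 i (mem_range.1 hi)))
    · intro x hx
      obtain ⟨k1, k2⟩ := sums (S := S) hx hf0 hfn h0 hmono
      constructor
      · simp only
        rw [← sum_div]
        have e : x⁻¹ = x / x ^ 2 := by field_simp
        rw [e, ← add_div]
        exact div_le_div_of_nonneg_right k1 (by positivity)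
      · simp only
        rw [← sum_div]
        exact div_le_div_of_nonneg_right k2 (by positivity)
  have hgd := gd_pos h0
  have hsmall : ∀ e : ℝ, 0 < e → ∃ n : ℕ, 0 < n ∧ δ * (gd τ / n) < e := by
    intro e he
    obtain ⟨n, hn⟩ := exists_nat_gt (δ * gd τ / e)
    have hn0 : (0 : ℝ) < n := lt_of_le_of_lt (by positivity) hn
    refine ⟨n, by exact_mod_cast hn0, ?_⟩
    rw [div_lt_iff₀ he] at hn
    rw [← mul_div_assoc, div_lt_iff₀ hn0]
    linarith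
  refine tendsto_order.2 ⟨fun a ha => ?_, fun b hb => ?_⟩
  · obtain ⟨n, hn, he⟩ := hsmall (δ * Gi τ - a) (by linarith)
    obtain ⟨U, L, u, l, hU, hL, c1, c2, c3, c4⟩ := key n hn
    have hal : a < δ * l := by
      have : δ * Gi τ ≤ δ * (l + gd τ / n) := mul_le_mul_of_nonneg_left (c2.trans c3) hδ
      rw [mul_add] at this
      linarith
    filter_upwards [hL.eventually (lt_mem_nhds hal), eventually_gt_atTop 0] with x hx hx0
    exact lt_of_lt_of_le hx (c4 x hx0).2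
  · obtain ⟨n, hn, he⟩ := hsmall (b - δ * Gi τ) (by linarith)
    obtain ⟨U, L, u, l, hU, hL, c1, c2, c3, c4⟩ := key n hn
    have hbu : δ * u < b := by
      have : δ * u ≤ δ * (Gi τ + gd τ / n) := mul_le_mul_of_nonneg_left (by linarith) hδ
      rw [mul_add] at this
      linarith
    filter_upwards [hU.eventually (gt_mem_nhds hbu), eventually_gt_atTop 0] with x hx hx0
    exact lt_of_le_of_lt (c4 x hx0).1 hx

theorem Th_zero (S : Set (ℕ × ℕ)) : Th S 0 = S := by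
  ext p
  simp [Th]

/-- the pairs outside -/
theorem outside {S : Set (ℕ × ℕ)} {τ x : ℝ} (h0 : 0 < τ) (hx : 1 ≤ x) :
    ((Sx S x).ncard : ℝ) ≤ ((Sx (Th S τ) x).ncard : ℝ) + 2 * τ ^ (1 / 3 : ℝ) * x ^ 2 := by
  classical
  have hx0 : 0 < x := by linarith
  have hη : 0 < τ ^ (2 / 3 : ℝ) := by positivity
  have h1 := cusp_count hη hx ((Sx_fin S x).toFinset \ (Sx_fin (Th S τ) x).toFinset) (by
    intro p hp
    rw [Finset.mem_sdiff, Set.Finite.mem_toFinset, Set.Finite.mem_toFinset] at hp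
    obtain ⟨⟨h2, h3⟩, h4⟩ := hp
    refine ⟨h3, ?_⟩
    have h5 := VV_le h3
    have a1 : (0 : ℝ) < p.1 := by exact_mod_cast h3.1
    have h6 : (p.1 : ℝ) < τ * p.2 := by
      by_contra h
      push Not at h
      exact h4 ⟨⟨h2, h⟩, h3⟩
    -- `p.1 ^ 3 < τ ^ 2 x ^ 3`
    have h7 : (p.1 : ℝ) ^ 3 < (τ ^ (2 / 3 : ℝ) * x) ^ 3 := by
      have e : (τ ^ (2 / 3 : ℝ) * x) ^ 3 = τ ^ 2 * x ^ 3 := by
        rw [mul_pow, ← Real.rpow_natCast (τ ^ (2 / 3 : ℝ)), ← Real.rpow_mul h0.le]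
        norm_num
      rw [e]
      calc (p.1 : ℝ) ^ 3 = p.1 * (p.1 : ℝ) ^ 2 := by ring
        _ < p.1 * (τ * p.2) ^ 2 := by
            refine mul_lt_mul_of_pos_left ?_ a1
            exact pow_lt_pow_left₀ h6 a1.le (by norm_num)
        _ = τ ^ 2 * (p.1 * (p.2 : ℝ) ^ 2) := by ring
        _ ≤ τ ^ 2 * x ^ 3 := mul_le_mul_of_nonneg_left h5 (by positivity)
    exact lt_of_pow_lt_pow_left₀ 3 (by positivity) h7)
  have e : Real.sqrt (τ ^ (2 / 3 : ℝ)) = τ ^ (1 / 3 : ℝ) := by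
    rw [Real.sqrt_eq_rpow, ← Real.rpow_mul h0.le]
    norm_num
  rw [e] at h1
  have h2 : (Sx_fin S x).toFinset.card ≤ ((Sx_fin S x).toFinset \ (Sx_fin (Th S τ) x).toFinset).card +
      (Sx_fin (Th S τ) x).toFinset.card := by
    exact card_le_card_sdiff_add_card
  rw [Set.ncard_eq_toFinset_card _ (Sx_fin S x), Set.ncard_eq_toFinset_card _ (Sx_fin (Th S τ) x)]
  have h3 : ((Sx_fin S x).toFinset.card : ℝ) ≤
      (((Sx_fin S x).toFinset \ (Sx_fin (Th S τ) x).toFinset).card : ℝ) +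
      ((Sx_fin (Th S τ) x).toFinset.card : ℝ) := by exact_mod_cast h2
  linarith

/-- **The law of the ratio.** -/
theorem law {S : Set (ℕ × ℕ)} (hS : IsLoc S) : ∃ δ : ℝ, 0 ≤ δ ∧ ∀ τ : ℝ, 0 ≤ τ → τ ≤ 1 →
    Tendsto (fun x : ℝ => ((Sx (Th S τ) x).ncard : ℝ) / x ^ 2) atTop (𝓝 (δ * Gi τ)) := by
  obtain ⟨δ, hδ, h⟩ := Tr_limit hS
  refine ⟨δ, hδ, fun τ h0 h1 => ?_⟩
  rcases eq_or_lt_of_le h0 with h0 | h0
  · subst h0
    have hpow : Tendsto (fun τ : ℝ => τ ^ (1 / 3 : ℝ)) (𝓝[>] 0) (𝓝 0) := by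
      have h2 : Tendsto (fun τ : ℝ => τ ^ (1 / 3 : ℝ)) (𝓝 0) (𝓝 ((0 : ℝ) ^ (1 / 3 : ℝ))) :=
        (Real.continuousAt_rpow_const 0 (1 / 3) (Or.inr (by norm_num))).tendsto
      rw [Real.zero_rpow (by norm_num)] at h2
      exact h2.mono_left nhdsWithin_le_nhds
    have hex : ∀ e : ℝ, 0 < e → ∃ τ : ℝ, 0 < τ ∧ τ ≤ 1 ∧ (3 * δ + 2) * τ ^ (1 / 3 : ℝ) < e := by
      intro e he
      have h3 : ∀ᶠ τ : ℝ in 𝓝[>] 0, τ ^ (1 / 3 : ℝ) < e / (3 * δ + 2) :=
        hpow.eventually (gt_mem_nhds (by positivity))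
      have h4 : ∀ᶠ τ : ℝ in 𝓝[>] 0, τ ≤ 1 := by
        refine (nhdsWithin_le_nhds : 𝓝[>] (0 : ℝ) ≤ 𝓝 0) ?_
        exact Iic_mem_nhds one_pos
      have h5 : ∀ᶠ τ : ℝ in 𝓝[>] 0, 0 < τ := eventually_mem_nhdsWithin
      obtain ⟨τ, a1, a2, a3⟩ := (h3.and (h4.and h5)).exists
      refine ⟨τ, a3, a2, ?_⟩
      rw [lt_div_iff₀ (by positivity)] at a1
      linarith
    rw [Th_zero]
    refine tendsto_order.2 ⟨fun a ha => ?_, fun b hb => ?_⟩
    · obtain ⟨τ, h2, h3, h4⟩ := hex (δ * Gi 0 - a) (by linarith)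
      have h5 := law_pos hδ h h2 h3
      have h6 : a < δ * Gi τ := by
        have h7 := mul_le_mul_of_nonneg_left (Gi_zero h2 h3) hδ
        have h8 : 0 ≤ τ ^ (1 / 3 : ℝ) := by positivity
        rw [mul_add] at h7
        nlinarith
      filter_upwards [h5.eventually (lt_mem_nhds h6)] with x hx
      refine lt_of_lt_of_le hx (div_le_div_of_nonneg_right ?_ (by positivity))
      have hs : Sx (Th S τ) x ⊆ Sx S x := fun p hp => ⟨hp.1.1, hp.2⟩
      exact_mod_cast Set.ncard_le_ncard hs (Sx_fin S x)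
    · obtain ⟨τ, h2, h3, h4⟩ := hex (b - δ * Gi 0) (by linarith)
      have h5 := law_pos hδ h h2 h3
      have h6 : δ * Gi τ < b - 2 * τ ^ (1 / 3 : ℝ) := by
        have h7 := mul_le_mul_of_nonneg_left (Gi_anti le_rfl h2.le h3) hδ
        have h8 : 0 ≤ δ * τ ^ (1 / 3 : ℝ) := by positivity
        nlinarith
      filter_upwards [h5.eventually (gt_mem_nhds h6), eventually_ge_atTop 1] with x hx hx1
      have hx0 : 0 < x := by linarith
      have h9 := outside (S := S) h2 hx1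
      rw [div_lt_iff₀ (by positivity)] at hx ⊢
      linarith
  · exact law_pos hδ h h0 h1

/-- the pairs, in any order, with ratio at least `τ` -/
def Rt (S : Set (ℕ × ℕ)) (τ : ℝ) : Set (ℕ × ℕ) :=
  {p | p ∈ S ∧ τ * (max p.1 p.2 : ℕ) ≤ (min p.1 p.2 : ℕ)}

/-- **The law of the ratio, without order.** -/
theorem Ax_law {S : Set (ℕ × ℕ)} (hS : IsLoc S) : ∃ δ : ℝ, 0 ≤ δ ∧ ∀ τ : ℝ, 0 ≤ τ → τ ≤ 1 →
    Tendsto (fun x : ℝ => ((Ax (Rt S τ) x).ncard : ℝ) / x ^ 2) atTop (𝓝 (δ * Gi τ)) := by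
  obtain ⟨δ₁, d1, h1⟩ := law hS
  obtain ⟨δ₂, d2, h2⟩ := law (swap_loc hS)
  refine ⟨δ₁ + δ₂, by positivity, fun τ t0 t1 => ?_⟩
  have e1 : ∀ x, Sx (Rt S τ) x = Sx (Th S τ) x := by
    intro x
    ext p
    constructor
    · rintro ⟨⟨a, b⟩, c⟩
      rw [max_eq_right c.2.1, min_eq_left c.2.1] at b
      exact ⟨⟨a, b⟩, c⟩
    · rintro ⟨⟨a, b⟩, c⟩
      refine ⟨⟨a, ?_⟩, c⟩
      rw [max_eq_right c.2.1, min_eq_left c.2.1]
      exact b
  have e2 : ∀ x, Sx {p | p.swap ∈ Rt S τ} x = Sx (Th {p | p.swap ∈ S} τ) x := by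
    intro x
    ext p
    constructor
    · rintro ⟨⟨a, b⟩, c⟩
      simp only [Prod.fst_swap, Prod.snd_swap] at b
      rw [max_eq_left c.2.1, min_eq_right c.2.1] at b
      exact ⟨⟨a, b⟩, c⟩
    · rintro ⟨⟨a, b⟩, c⟩
      refine ⟨⟨a, ?_⟩, c⟩
      simp only [Prod.fst_swap, Prod.snd_swap]
      rw [max_eq_left c.2.1, min_eq_right c.2.1]
      exact b
  have h3 := (h1 τ t0 t1).add (h2 τ t0 t1)
  rw [← add_mul] at h3
  have h4 : Tendsto (fun x : ℝ => ((Sx (Th S τ) x).ncard : ℝ) / x ^ 2 +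
      ((Sx (Th {p | p.swap ∈ S} τ) x).ncard : ℝ) / x ^ 2 - x⁻¹) atTop (𝓝 ((δ₁ + δ₂) * Gi τ)) := by
    have := h3.sub tendsto_inv_atTop_zero
    rwa [sub_zero] at this
  refine tendsto_of_tendsto_of_tendsto_of_le_of_le' h4 h3 ?_ ?_
  · filter_upwards [eventually_gt_atTop 0] with x hx
    have h6 := (Ax_card (Rt S τ) hx.le).2
    rw [e1, e2] at h6
    have e : ((Sx (Th S τ) x).ncard : ℝ) / x ^ 2 +
        ((Sx (Th {p | p.swap ∈ S} τ) x).ncard : ℝ) / x ^ 2 - x⁻¹ =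
        (((Sx (Th S τ) x).ncard : ℝ) + ((Sx (Th {p | p.swap ∈ S} τ) x).ncard : ℝ) - x) / x ^ 2 := by
      field_simp
    rw [e]
    exact div_le_div_of_nonneg_right (by linarith) (by positivity)
  · filter_upwards [eventually_gt_atTop 0] with x hx
    have h6 := (Ax_card (Rt S τ) hx.le).1
    rw [e1, e2] at h6
    rw [← add_div]
    exact div_le_div_of_nonneg_right h6 (by positivity)

end Pool.Agent.Y679.Jl
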