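import Pool.Agent.Y679.Jl.Den
import Pool.Agent.Y679.Jl.Gi

/-! **The density in the regions `a ≥ τ b`, `a b (a + b) ≤ x ^ 3`** (helper679). -/

set_option autoImplicit false

namespace Pool.Agent.Y679.Jl

open Finset Filter Topology Pool.Agent.TH498.AR Pool.Agent.Y679.Par

/-- the pairs with `τ b ≤ a` -/
def Th (S : Set (ℕ × ℕ)) (τ : ℝ) : Set (ℕ × ℕ) := {p | p ∈ S ∧ τ * p.2 ≤ p.1}

theorem find_step {f : ℕ → ℝ} {n : ℕ} {t : ℝ} (h0 : f 0 ≤ t) (hn : t < f n) :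
    ∃ i < n, f i ≤ t ∧ t < f (i + 1) := by
  induction n with
  | zero => linarith
  | succ m ih =>
    rcases lt_or_ge t (f m) with h | h
    · obtain ⟨i, hi, h1⟩ := ih h
      exact ⟨i, by omega, h1⟩
    · exact ⟨m, by omega, h, hn⟩

theorem diag_card {x : ℝ} (hx : 0 ≤ x) (E : Finset (ℕ × ℕ))
    (hE : ∀ p ∈ E, p ∈ VV x ∧ p.1 = p.2) : (E.card : ℝ) ≤ x := by
  have h1 : E.card ≤ (Icc 1 ⌊x⌋₊).card := by
    refine card_le_card_of_injOn (fun p => p.1) ?_ ?_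
    · intro p hp
      obtain ⟨⟨h2, h3, h4⟩, h5⟩ := hE p hp
      rw [mem_coe, mem_Icc]
      refine ⟨h2, Nat.le_floor ?_⟩
      have h6 : (0 : ℝ) < p.1 := by exact_mod_cast h2
      have h7 : (p.1 : ℝ) ^ 3 ≤ x ^ 3 := by
        rw [← h5] at h4
        refine le_trans ?_ h4
        have : 0 < (p.1 : ℝ) ^ 3 := by positivity
        nlinarith
      exact (pow_le_pow_iff_left₀ h6.le hx (by norm_num)).1 h7
    · intro p hp p' hp' h
      have h1 := (hE p hp).2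
      have h2 := (hE p' hp').2
      simp only at h
      exact Prod.ext h (by rw [← h1, ← h2, h])
  rw [Nat.card_Icc, Nat.add_sub_cancel] at h1
  calc (E.card : ℝ) ≤ (⌊x⌋₊ : ℝ) := by exact_mod_cast h1
    _ ≤ x := Nat.floor_le hx

/-- a triangle above -/
theorem sub_Tr {S : Set (ℕ × ℕ)} {τ x α β : ℝ} (hx : 0 < x) (hα : 0 < α) {p : ℕ × ℕ}
    (hp : p ∈ Sx (Th S τ) x) (h1 : α * p.2 ≤ p.1) (h2 : (p.1 : ℝ) < β * p.2) :
    p ∈ Tr S α β (cd α * x) := by
  obtain ⟨⟨h3, -⟩, h4, h5, h6⟩ := hp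
  have a1 : (0 : ℝ) < p.1 := by exact_mod_cast h4
  have a2 : (0 : ℝ) < p.2 := by exact_mod_cast (by omega : 0 < p.2)
  refine ⟨h3, by omega, ?_, h1, h2⟩
  have hc := cd_pos hα
  have h7 : (α * (1 + α)) * (p.2 : ℝ) ^ 3 ≤ x ^ 3 := by
    refine le_trans ?_ h6
    have b1 : α * p.2 * p.2 ≤ (p.1 : ℝ) * p.2 := mul_le_mul_of_nonneg_right h1 a2.le
    have b2 : α * p.2 + p.2 ≤ (p.1 : ℝ) + p.2 := by linarith
    calc (α * (1 + α)) * (p.2 : ℝ) ^ 3 = (α * p.2 * p.2) * (α * p.2 + p.2) := by ring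
      _ ≤ _ := mul_le_mul b1 b2 (by positivity) (by positivity)
  have h8 : (p.2 : ℝ) ^ 3 ≤ (cd α * x) ^ 3 := by
    have h9 := mul_le_mul_of_nonneg_left h7 (by positivity : 0 ≤ cd α ^ 3)
    have e : cd α ^ 3 * (α * (1 + α) * (p.2 : ℝ) ^ 3) = (p.2 : ℝ) ^ 3 := by
      rw [← mul_assoc, cd_cube hα, one_mul]
    rw [e, ← mul_pow] at h9
    exact h9
  exact (pow_le_pow_iff_left₀ a2.le (by positivity) (by norm_num)).1 h8

/-- a triangle below -/
theorem Tr_sub {S : Set (ℕ × ℕ)} {τ x α β : ℝ} (hτ : τ ≤ α) (hα : 0 < α)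
    (hαβ : α ≤ β) (hβ : β ≤ 1) {p : ℕ × ℕ} (hp : p ∈ Tr S α β (cd β * x)) :
    p ∈ Sx (Th S τ) x := by
  obtain ⟨h1, h2, h3, h4, h5⟩ := hp
  have a2 : (0 : ℝ) < p.2 := by exact_mod_cast h2
  have a1 : (0 : ℝ) < p.1 := lt_of_lt_of_le (by positivity) h4
  have hβ0 : 0 < β := by linarith
  have h6 : (p.1 : ℝ) < p.2 := lt_of_lt_of_le h5 (by nlinarith)
  refine ⟨⟨h1, le_trans (mul_le_mul_of_nonneg_right hτ a2.le) h4⟩, by exact_mod_cast a1,
    by exact_mod_cast h6.le, ?_⟩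
  have h7 : (p.2 : ℝ) ^ 3 ≤ (cd β * x) ^ 3 := pow_le_pow_left₀ a2.le h3 3
  have h8 : (p.1 : ℝ) * p.2 * (p.1 + p.2) ≤ (β * (1 + β)) * (p.2 : ℝ) ^ 3 := by
    have b1 : (p.1 : ℝ) * p.2 ≤ β * p.2 * p.2 := mul_le_mul_of_nonneg_right h5.le a2.le
    calc (p.1 : ℝ) * p.2 * (p.1 + p.2) ≤ (β * p.2 * p.2) * (β * p.2 + p.2) :=
          mul_le_mul b1 (by linarith) (by positivity) (by positivity)
      _ = _ := by ring
  refine h8.trans ?_
  calc (β * (1 + β)) * (p.2 : ℝ) ^ 3 ≤ (β * (1 + β)) * (cd β * x) ^ 3 :=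
        mul_le_mul_of_nonneg_left h7 (by positivity)
    _ = (cd β ^ 3 * (β * (1 + β))) * x ^ 3 := by ring
    _ = x ^ 3 := by rw [cd_cube hβ0, one_mul]

/-- the two sums -/
theorem sums {S : Set (ℕ × ℕ)} {τ x : ℝ} (hx : 0 < x) {f : ℕ → ℝ} {n : ℕ} (h0 : f 0 = τ)
    (hn : f n = 1) (hτ : 0 < τ) (hf : Monotone f) :
    ((Sx (Th S τ) x).ncard : ℝ) ≤
      ∑ i ∈ range n, ((Tr S (f i) (f (i + 1)) (cd (f i) * x)).ncard : ℝ) + x ∧
    ∑ i ∈ range n, ((Tr S (f i) (f (i + 1)) (cd (f (i + 1)) * x)).ncard : ℝ) ≤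
      ((Sx (Th S τ) x).ncard : ℝ) := by
  classical
  have hf1 : ∀ i < n, f (i + 1) ≤ 1 := fun i hi => by rw [← hn]; exact hf (by omega)
  have hf0 : ∀ i, 0 < f i := fun i => lt_of_lt_of_le hτ (by rw [← h0]; exact hf (Nat.zero_le _))
  have hNfin : (Sx (Th S τ) x).Finite := Sx_fin _ x
  have hTfin : ∀ i < n, ∀ y : ℝ, (Tr S (f i) (f (i + 1)) y).Finite := fun i hi y =>
    Tr_fin S (hf1 i hi) y
  constructor
  · obtain ⟨D, hD⟩ : ∃ D : Finset (ℕ × ℕ), D = hNfin.toFinset.filter (fun p => p.1 = p.2) := ⟨_, rfl⟩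
    have hDc : (D.card : ℝ) ≤ x := by
      refine diag_card hx.le D fun p hp => ?_
      rw [hD, mem_filter, Set.Finite.mem_toFinset] at hp
      exact ⟨hp.1.2, hp.2⟩
    have hsub : Sx (Th S τ) x ⊆ (⋃ i ∈ range n, Tr S (f i) (f (i + 1)) (cd (f i) * x)) ∪
        (D : Set (ℕ × ℕ)) := by
      intro p hp
      obtain ⟨⟨h1, h2⟩, h3, h4, h5⟩ := id hp
      have a2 : (0 : ℝ) < p.2 := by exact_mod_cast (by omega : 0 < p.2)
      rcases eq_or_lt_of_le h4 with h | h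
      · right
        rw [mem_coe, hD, mem_filter, Set.Finite.mem_toFinset]
        exact ⟨hp, h⟩
      · left
        have h6 : (p.1 : ℝ) < p.2 := by exact_mod_cast h
        obtain ⟨i, hi, h7, h8⟩ := find_step (f := f) (n := n) (t := (p.1 : ℝ) / p.2)
          (by rw [h0, le_div_iff₀ a2]; exact h2) (by rw [hn, div_lt_one a2]; exact h6)
        rw [le_div_iff₀ a2] at h7
        rw [div_lt_iff₀ a2] at h8
        refine Set.mem_iUnion₂.2 ⟨i, mem_range.2 hi, ?_⟩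
        exact sub_Tr hx (hf0 i) hp h7 h8
    have hfin : ((⋃ i ∈ range n, Tr S (f i) (f (i + 1)) (cd (f i) * x)) ∪
        (D : Set (ℕ × ℕ))).Finite := by
      refine Set.Finite.union ?_ (Finset.finite_toSet _)
      exact Set.Finite.biUnion (Finset.finite_toSet _) fun i hi => hTfin i (mem_range.1 hi) _
    have h1 := (Set.ncard_le_ncard hsub hfin).trans (Set.ncard_union_le _ _)
    rw [Set.ncard_coe_finset] at h1
    have h2 : (⋃ i ∈ range n, Tr S (f i) (f (i + 1)) (cd (f i) * x)).ncard ≤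
        ∑ i ∈ range n, (Tr S (f i) (f (i + 1)) (cd (f i) * x)).ncard := by
      exact Finset.set_ncard_biUnion_le _ _
    have h3 : ((Sx (Th S τ) x).ncard : ℝ) ≤
        ∑ i ∈ range n, ((Tr S (f i) (f (i + 1)) (cd (f i) * x)).ncard : ℝ) + D.card := by
      exact_mod_cast h1.trans (Nat.add_le_add_right h2 _)
    linarith
  · obtain ⟨F, hF⟩ : ∃ F : ℕ → Finset (ℕ × ℕ), ∀ i < n,
        ((F i : Finset (ℕ × ℕ)) : Set (ℕ × ℕ)) = Tr S (f i) (f (i + 1)) (cd (f (i + 1)) * x) := by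
      refine ⟨fun i => if h : i < n then (hTfin i h (cd (f (i + 1)) * x)).toFinset else ∅, ?_⟩
      intro i hi
      simp [hi]
    have hmem : ∀ i < n, ∀ p, p ∈ F i ↔ p ∈ Tr S (f i) (f (i + 1)) (cd (f (i + 1)) * x) := by
      intro i hi p
      rw [← mem_coe, hF i hi]
    have hc : ∑ i ∈ range n, ((Tr S (f i) (f (i + 1)) (cd (f (i + 1)) * x)).ncard : ℝ) =
        (((range n).biUnion F).card : ℝ) := by
      rw [card_biUnion]
      · push_cast
        refine sum_congr rfl fun i hi => ?_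
        rw [← hF i (mem_range.1 hi), Set.ncard_coe_finset]
      · intro i hi j hj hij
        rw [mem_coe, mem_range] at hi hj
        rw [Function.onFun, disjoint_left]
        intro p hp hp'
        rw [hmem i hi] at hp
        rw [hmem j hj] at hp'
        obtain ⟨-, b2, -, b4, b5⟩ := hp
        obtain ⟨-, -, -, b4', b5'⟩ := hp'
        have a2 : (0 : ℝ) < p.2 := by exact_mod_cast b2
        rcases lt_or_gt_of_ne hij with h | h
        · have := hf (by omega : i + 1 ≤ j)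
          have := mul_le_mul_of_nonneg_right this a2.le
          linarith
        · have := hf (by omega : j + 1 ≤ i)
          have := mul_le_mul_of_nonneg_right this a2.le
          linarith
    rw [hc, Set.ncard_eq_toFinset_card _ hNfin]
    refine Nat.cast_le.2 (card_le_card fun p hp => ?_)
    obtain ⟨i, hi, hpi⟩ := mem_biUnion.1 hp
    rw [mem_range] at hi
    rw [Set.Finite.mem_toFinset]
    refine Tr_sub ?_ (hf0 i) (hf (by omega)) (hf1 i hi) ((hmem i hi p).1 hpi)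
    rw [← h0]
    exact hf (Nat.zero_le _)

end Pool.Agent.Y679.Jl
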