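import Pool.Agent.TH498.AR.Wt
import Pool.Agent.Y679.Tl

/-! **The pairs with a large product of quotient and invariant: coprime pairs** (helper679). -/

set_option autoImplicit false

namespace Pool.Agent.Y679.Jl

open Finset Pool.Agent.TH498.AR Pool.Agent.Y679.Par

/-- the weighted sum over the boxes with `i ≤ j` -/
theorem dyadic' (θ s : ℝ) (h1 : 2 / 3 < θ) (h2 : θ < 1) (hs : s < 1 / 3) :
    ∃ C : ℝ, 1 ≤ C ∧ ∀ Y : ℝ, 1 ≤ Y → ∀ J : ℕ,
    ∑ j ∈ range J, ∑ i ∈ range (j + 1), ((2 : ℝ) ^ s) ^ (j - i) * ((2 : ℝ) ^ (i + j) *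
      min 1 (zz Y i j ^ (-θ))) ≤ C * Y ^ ((2 : ℝ) / 3) := by
  obtain ⟨C, hC, h⟩ := dyadic θ h1 h2
  obtain ⟨r, hr⟩ : ∃ r : ℝ, r = (2 : ℝ) ^ (s - 1 / 3) := ⟨_, rfl⟩
  have hr0 : 0 < r := by rw [hr]; positivity
  have hr1 : r < 1 := by
    rw [hr]; exact Real.rpow_lt_one_of_one_lt_of_neg (by norm_num) (by linarith)
  have hone : ∀ Y : ℝ, 1 ≤ Y → ∀ J : ℕ,
      ∑ j ∈ range J, (4 : ℝ) ^ j * min 1 (zz Y j j ^ (-θ)) ≤ C * Y ^ ((2 : ℝ) / 3) := by
    intro Y hY J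
    refine le_trans (sum_le_sum fun j _ => ?_) (h Y hY J)
    have h3 : ∀ i ∈ range (j + 1), 0 ≤ (2 : ℝ) ^ (i + j) * min 1 (zz Y i j ^ (-θ)) := by
      intro i _
      have hz := zz_pos hY i j
      have : 0 ≤ min 1 (zz Y i j ^ (-θ)) := le_min zero_le_one (by positivity)
      positivity
    refine le_trans (le_of_eq ?_) (single_le_sum h3 (mem_range.2 (Nat.lt_succ_self j)))
    congr 1
    rw [pow_add, ← mul_pow]
    norm_num
  refine ⟨C / (1 - r), ?_, fun Y hY J => ?_⟩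
  · rw [le_div_iff₀ (by linarith)]
    linarith
  have hY0 : 0 < Y := by linarith
  have hq0 : (0 : ℝ) < (2 : ℝ) ^ s := by positivity
  have hstep : ∀ j ∈ range J, ∑ i ∈ range (j + 1), ((2 : ℝ) ^ s) ^ (j - i) * ((2 : ℝ) ^ (i + j) *
      min 1 (zz Y i j ^ (-θ))) ≤ ∑ k ∈ range J, ((2 : ℝ) ^ s / 2) ^ k *
        ((4 : ℝ) ^ j * min 1 (zz ((2 : ℝ) ^ k * Y) j j ^ (-θ))) := by
    intro j hj
    rw [mem_range] at hj
    rw [← Finset.sum_flip]
    have h4 : ∀ k ∈ range (j + 1), ((2 : ℝ) ^ s) ^ (j - (j - k)) * ((2 : ℝ) ^ (j - k + j) *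
        min 1 (zz Y (j - k) j ^ (-θ))) = ((2 : ℝ) ^ s / 2) ^ k *
        ((4 : ℝ) ^ j * min 1 (zz ((2 : ℝ) ^ k * Y) j j ^ (-θ))) := by
      intro k hk
      have hkj : k ≤ j := by
        have := mem_range.1 hk
        omega
      have e1 : j - (j - k) = k := by omega
      have e2 : (2 : ℝ) ^ (j - k + j) = 4 ^ j / 2 ^ k := by
        rw [eq_div_iff (by positivity), ← pow_add]
        have : j - k + j + k = 2 * j := by omega
        rw [this, pow_mul]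
        norm_num
      have e3 : zz Y (j - k) j = zz ((2 : ℝ) ^ k * Y) j j := by
        unfold zz
        rw [div_eq_div_iff (by positivity) (by positivity)]
        have : (2 : ℝ) ^ (j + 2 * j) = 2 ^ (j - k + 2 * j) * 2 ^ k := by
          rw [← pow_add]
          congr 1
          omega
        rw [this]
        ring
      rw [e1, e2, e3, div_pow]
      ring
    rw [sum_congr rfl h4]
    refine sum_le_sum_of_subset_of_nonneg (range_subset_range.2 (by omega)) fun k _ _ => ?_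
    have hz := zz_pos (Y := (2 : ℝ) ^ k * Y) (by
      have : (1 : ℝ) ≤ 2 ^ k := one_le_pow₀ (by norm_num)
      nlinarith) j j
    have : 0 ≤ min 1 (zz ((2 : ℝ) ^ k * Y) j j ^ (-θ)) := le_min zero_le_one (by positivity)
    positivity
  refine (sum_le_sum hstep).trans ?_
  rw [sum_comm]
  have h5 : ∀ k ∈ range J, ∑ j ∈ range J, ((2 : ℝ) ^ s / 2) ^ k *
      ((4 : ℝ) ^ j * min 1 (zz ((2 : ℝ) ^ k * Y) j j ^ (-θ))) ≤ r ^ k * (C * Y ^ ((2 : ℝ) / 3)) := by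
    intro k _
    rw [← mul_sum]
    have h6 := hone ((2 : ℝ) ^ k * Y) (by
      have : (1 : ℝ) ≤ 2 ^ k := one_le_pow₀ (by norm_num)
      nlinarith) J
    have h7 : ((2 : ℝ) ^ k * Y) ^ ((2 : ℝ) / 3) = ((2 : ℝ) ^ ((2 : ℝ) / 3)) ^ k * Y ^ ((2 : ℝ) / 3) := by
      rw [Real.mul_rpow (by positivity) hY0.le]
      congr 1
      rw [← Real.rpow_natCast, ← Real.rpow_natCast, ← Real.rpow_mul (by norm_num),
        ← Real.rpow_mul (by norm_num), mul_comm]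
    have h8 : (2 : ℝ) ^ s / 2 * (2 : ℝ) ^ ((2 : ℝ) / 3) = r := by
      have e8 : s - 1 / 3 = s + 2 / 3 - 1 := by ring
      rw [hr, e8, Real.rpow_sub_one (by norm_num), Real.rpow_add (by norm_num)]
      ring
    calc ((2 : ℝ) ^ s / 2) ^ k * ∑ j ∈ range J, (4 : ℝ) ^ j * min 1 (zz ((2 : ℝ) ^ k * Y) j j ^ (-θ))
        ≤ ((2 : ℝ) ^ s / 2) ^ k * (C * ((2 : ℝ) ^ k * Y) ^ ((2 : ℝ) / 3)) :=
          mul_le_mul_of_nonneg_left h6 (by positivity)
      _ = ((2 : ℝ) ^ s / 2 * (2 : ℝ) ^ ((2 : ℝ) / 3)) ^ k * (C * Y ^ ((2 : ℝ) / 3)) := by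
          rw [h7, mul_pow]
          ring
      _ = _ := by rw [h8]
  refine (sum_le_sum h5).trans ?_
  rw [← sum_mul]
  have h9 : ∑ k ∈ range J, r ^ k ≤ 1 / (1 - r) := by
    have := geom_tail hr0 hr1 0 J
    rw [pow_zero] at this
    have e : (range J).filter (fun i => 0 ≤ i) = range J := by
      refine filter_true_of_mem fun _ _ => Nat.zero_le _
    rwa [e] at this
  calc (∑ k ∈ range J, r ^ k) * (C * Y ^ ((2 : ℝ) / 3)) ≤ 1 / (1 - r) * (C * Y ^ ((2 : ℝ) / 3)) :=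
        mul_le_mul_of_nonneg_right h9 (by positivity)
    _ = _ := by ring

/-- **The sum over the boxes.** -/
theorem main_tail (σ1 : ℝ) (hσ0 : 0 ≤ σ1) (hσ1 : σ1 < 1 / 3) :
    ∃ C1 C2 : ℝ, 1 ≤ C1 ∧ 1 ≤ C2 ∧ ∀ (P : Finset ℕ) (Y V : ℝ), 1 ≤ Y → 0 < V →
    ∀ (M : ℕ), ∀ E : Finset (ℕ × ℕ),
    (∀ p ∈ E, 0 < p.1 ∧ p.1 ≤ p.2 ∧ Nat.Coprime p.1 p.2 ∧
      (radP P (p.1 * p.2 * (p.1 + p.2)) : ℝ) ≤ Y ∧ psi3 P p ≤ M ∧ M ^ 2 ≤ p.2 ∧
      V * p.1 ≤ (psi3 P p : ℝ) * p.2) →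
    (E.card : ℝ) ≤ C1 * C2 ^ P.card * V ^ (-σ1) * Y ^ ((2 : ℝ) / 3) := by
  classical
  obtain ⟨θ, hθ⟩ : ∃ θ : ℝ, θ = 2 / 3 + (1 / 3 - σ1) / 4 := ⟨_, rfl⟩
  obtain ⟨σ, hσ⟩ : ∃ σ : ℝ, σ = θ + σ1 := ⟨_, rfl⟩
  have hθ0 : 2 / 3 < θ := by rw [hθ]; linarith
  have hθ1 : θ < 1 := by rw [hθ]; linarith
  have hσa : 0 < σ := by rw [hσ]; linarith
  have hσb : σ < 1 := by rw [hσ, hθ]; linarith
  obtain ⟨K1, K2, hK1, hK2, hK⟩ := box_count σ hσa hσb
  obtain ⟨D, hD, hdy⟩ := dyadic' θ σ1 hθ0 hθ1 hσ1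
  refine ⟨K1 * 2 * D, K2, by nlinarith, hK2, ?_⟩
  intro P Y V hY hV M E hE
  obtain ⟨J, hJ⟩ : ∃ J : ℕ, J = (E.image (fun p => Nat.clog 2 p.2)).sup id + 1 := ⟨_, rfl⟩
  set box : ℕ → ℕ → Finset (ℕ × ℕ) := fun i j =>
    E.filter (fun p => Nat.clog 2 p.1 = i ∧ Nat.clog 2 p.2 = j) with hbx
  -- the boxes cover
  have hcover : (E.card : ℝ) = ∑ j ∈ range J, ∑ i ∈ range (j + 1), ((box i j).card : ℝ) := by
    have h1 : ∀ p ∈ E, Nat.clog 2 p.2 ∈ range J := by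
      intro p hp
      rw [mem_range, hJ, Nat.lt_succ_iff]
      exact Finset.le_sup (f := id) (mem_image_of_mem _ hp)
    have h0 : (E.card : ℝ) = ∑ p ∈ E, (1 : ℝ) := by simp
    rw [h0, ← sum_fiberwise_of_maps_to h1]
    refine sum_congr rfl fun j _ => ?_
    have h2 : ∀ p ∈ E.filter (fun p => Nat.clog 2 p.2 = j), Nat.clog 2 p.1 ∈ range (j + 1) := by
      intro p hp
      obtain ⟨hpE, hpj⟩ := mem_filter.1 hp
      rw [mem_range, Nat.lt_succ_iff, ← hpj]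
      exact Nat.clog_mono_right 2 (hE p hpE).2.1
    rw [← sum_fiberwise_of_maps_to h2]
    refine sum_congr rfl fun i _ => ?_
    rw [sum_const, nsmul_eq_mul, mul_one, hbx, filter_filter]
    congr 2
    refine filter_congr fun p _ => ?_
    constructor
    · rintro ⟨a, b⟩; exact ⟨b, a⟩
    · rintro ⟨a, b⟩; exact ⟨b, a⟩
  have hone : ∀ j : ℕ, ∀ i ∈ range (j + 1), ((box i j).card : ℝ) ≤
      K1 * 2 * K2 ^ P.card * V ^ (-σ1) * (((2 : ℝ) ^ σ1) ^ (j - i) * ((2 : ℝ) ^ (i + j) *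
        min 1 (zz Y i j ^ (-θ)))) := by
    intro j i hi
    have hij : i ≤ j := by
      have := mem_range.1 hi
      omega
    have hz := zz_pos hY i j
    have hnn : 0 ≤ K1 * 2 * K2 ^ P.card * V ^ (-σ1) * (((2 : ℝ) ^ σ1) ^ (j - i) *
        ((2 : ℝ) ^ (i + j) * min 1 (zz Y i j ^ (-θ)))) := by
      have : 0 ≤ min 1 (zz Y i j ^ (-θ)) := le_min zero_le_one (by positivity)
      have : 0 ≤ K1 := by linarith
      have : 0 ≤ K2 := by linarith
      positivity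
    rcases (box i j).eq_empty_or_nonempty with he | ⟨p0, hp0⟩
    · rw [he, card_empty, Nat.cast_zero]
      exact hnn
    obtain ⟨v, hv⟩ : ∃ v : ℝ, v = V / (2 * 2 ^ (j - i)) := ⟨_, rfl⟩
    have hv0 : 0 < v := by rw [hv]; positivity
    obtain ⟨s, hs⟩ : ∃ s : ℝ, s = max 1 (max v (zz Y i j)) := ⟨_, rfl⟩
    have hs1 : 1 ≤ s := by rw [hs]; exact le_max_left _ _
    have hsV : v ≤ s := by rw [hs]; exact (le_max_left _ _).trans (le_max_right _ _)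
    have hsz : zz Y i j ≤ s := by rw [hs]; exact (le_max_right _ _).trans (le_max_right _ _)
    have hs0 : 0 < s := by linarith
    have hMB : M ^ 2 ≤ 2 ^ j := by
      obtain ⟨hpE, -, hpj⟩ := mem_filter.1 hp0
      have := (hE p0 hpE).2.2.2.2.2.1
      refine this.trans ?_
      rw [← hpj]
      exact Nat.le_pow_clog (by norm_num) _
    have hcard := hK P (2 ^ i) (2 ^ j) M s hs0 hMB (box i j) (by
      intro p hp
      obtain ⟨hpE, hpi, hpj⟩ := mem_filter.1 hp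
      obtain ⟨a1, a2, a3, a4, a5, a6, a7⟩ := hE p hpE
      have c1 : (0 : ℝ) < p.1 := by exact_mod_cast a1
      have c2 : (0 : ℝ) < p.2 := by exact_mod_cast (by omega : 0 < p.2)
      have b1 := clog_le a1
      have b2 := clog_le (a := p.2) (by omega)
      rw [hpi] at b1
      rw [hpj] at b2
      have b3 := coprime3 (P := P) a3
      refine ⟨mem_Icc.2 ⟨a1, ?_⟩, mem_Icc.2 ⟨by omega, ?_⟩, a3, ?_, a5⟩
      · rw [← hpi]; exact Nat.le_pow_clog (by norm_num) _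
      · rw [← hpj]; exact Nat.le_pow_clog (by norm_num) _
      · rw [hs]
        refine max_le ?_ (max_le ?_ ?_)
        · have h9 : 0 < psi3 P p := by
            rcases Nat.eq_zero_or_pos (psi3 P p) with h0 | h0
            · rw [h0, zero_mul] at b3
              have : 0 < p.1 * p.2 * (p.1 + p.2) := by
                have : 0 < p.2 := by omega
                positivity
              omega
            · exact h0
          exact_mod_cast h9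
        · -- `p.2 ≤ 2 ^ j`, `2 ^ i ≤ 2 p.1`
          have d1 : (p.2 : ℝ) ≤ 2 ^ j := by
            have : p.2 ≤ 2 ^ j := by rw [← hpj]; exact Nat.le_pow_clog (by norm_num) _
            exact_mod_cast this
          have d2 : (2 : ℝ) ^ j = 2 ^ i * 2 ^ (j - i) := by
            rw [← pow_add]
            congr 1
            omega
          rw [hv, div_le_iff₀ (by positivity)]
          have d3 : V * p.1 ≤ (psi3 P p : ℝ) * (2 * p.1 * 2 ^ (j - i)) := by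
            refine a7.trans (mul_le_mul_of_nonneg_left ?_ (Nat.cast_nonneg _))
            calc (p.2 : ℝ) ≤ 2 ^ j := d1
              _ = 2 ^ i * 2 ^ (j - i) := d2
              _ ≤ 2 * p.1 * 2 ^ (j - i) := mul_le_mul_of_nonneg_right b1 (by positivity)
          have d4 : V * p.1 ≤ ((psi3 P p : ℝ) * (2 * 2 ^ (j - i))) * p.1 := by
            refine d3.trans (le_of_eq ?_)
            ring
          exact le_of_mul_le_mul_right d4 c1
        · have b4 : (psi3 P p : ℝ) * (radP P (p.1 * p.2 * (p.1 + p.2)) : ℝ) =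
              (p.1 : ℝ) * p.2 * (p.1 + p.2) := by exact_mod_cast b3
          have b5 : (p.1 : ℝ) * p.2 * (p.1 + p.2) ≤ (psi3 P p : ℝ) * Y := by
            rw [← b4]
            exact mul_le_mul_of_nonneg_left a4 (Nat.cast_nonneg _)
          unfold zz
          rw [div_le_iff₀ (by positivity)]
          have b6 : (2 : ℝ) ^ (i + 2 * j) ≤ (2 * p.1) * ((2 * p.2) * (2 * p.2)) := by
            have : (2 : ℝ) ^ (i + 2 * j) = 2 ^ i * (2 ^ j * 2 ^ j) := by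
              rw [pow_add, two_mul, pow_add]
            rw [this]
            refine mul_le_mul b1 (mul_le_mul b2 b2 (by positivity) (by positivity)) (by positivity)
              (by positivity)
          have b7 : (2 * (p.1 : ℝ)) * ((2 * p.2) * (2 * p.2)) ≤ 8 * ((p.1 : ℝ) * p.2 * (p.1 + p.2)) := by
            have : 0 ≤ (p.1 : ℝ) * p.2 * p.1 := by positivity
            nlinarith
          nlinarith)
    have hcard' : ((box i j).card : ℝ) ≤ (K1 * K2 ^ P.card) * (2 : ℝ) ^ (i + j) * s ^ (-σ) := by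
      refine hcard.trans (le_of_eq ?_)
      rw [pow_add]
      push_cast
      ring
    have x3 : s ^ (-σ) ≤ (2 * V ^ (-σ1) * ((2 : ℝ) ^ σ1) ^ (j - i)) * min 1 (zz Y i j ^ (-θ)) := by
      have e : s ^ (-σ) = s ^ (-σ1) * s ^ (-θ) := by
        rw [← Real.rpow_add hs0, hσ]
        congr 1
        ring
      rw [e]
      have y1 : s ^ (-σ1) ≤ v ^ (-σ1) :=
        Real.rpow_le_rpow_of_nonpos hv0 hsV (by linarith)
      have y1' : v ^ (-σ1) ≤ 2 * V ^ (-σ1) * ((2 : ℝ) ^ σ1) ^ (j - i) := by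
        rw [hv, Real.div_rpow hV.le (by positivity), Real.mul_rpow (by norm_num) (by positivity),
          Real.rpow_neg (by positivity : (0 : ℝ) ≤ 2 ^ (j - i)), Real.rpow_neg (by norm_num : (0 : ℝ) ≤ 2)]
        have e1 : ((2 : ℝ) ^ (j - i)) ^ σ1 = ((2 : ℝ) ^ σ1) ^ (j - i) := by
          rw [← Real.rpow_natCast, ← Real.rpow_natCast, ← Real.rpow_mul (by norm_num),
            ← Real.rpow_mul (by norm_num), mul_comm]
        rw [e1, ← mul_inv, div_inv_eq_mul]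
        have e2 : (2 : ℝ) ^ σ1 ≤ 2 := by
          calc (2 : ℝ) ^ σ1 ≤ 2 ^ (1 : ℝ) :=
                Real.rpow_le_rpow_of_exponent_le (by norm_num) (by linarith)
            _ = 2 := Real.rpow_one _
        have e3 : 0 ≤ V ^ (-σ1) := by positivity
        have e4 : 0 ≤ ((2 : ℝ) ^ σ1) ^ (j - i) := by positivity
        calc V ^ (-σ1) * ((2 : ℝ) ^ σ1 * ((2 : ℝ) ^ σ1) ^ (j - i))
            ≤ V ^ (-σ1) * (2 * ((2 : ℝ) ^ σ1) ^ (j - i)) :=
              mul_le_mul_of_nonneg_left (mul_le_mul_of_nonneg_right e2 e4) e3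
          _ = _ := by ring
      have y2 : s ^ (-θ) ≤ min 1 (zz Y i j ^ (-θ)) := by
        refine le_min ?_ ?_
        · exact Real.rpow_le_one_of_one_le_of_nonpos hs1 (by linarith)
        · exact Real.rpow_le_rpow_of_nonpos hz hsz (by linarith)
      exact mul_le_mul (y1.trans y1') y2 (by positivity) (by positivity)
    have hK0 : 0 ≤ (K1 * K2 ^ P.card) * (2 : ℝ) ^ (i + j) := by
      have : 0 ≤ K1 := by linarith
      have : 0 ≤ K2 := by linarith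
      positivity
    calc ((box i j).card : ℝ) ≤ (K1 * K2 ^ P.card) * (2 : ℝ) ^ (i + j) * s ^ (-σ) := hcard'
      _ ≤ (K1 * K2 ^ P.card) * (2 : ℝ) ^ (i + j) *
          ((2 * V ^ (-σ1) * ((2 : ℝ) ^ σ1) ^ (j - i)) * min 1 (zz Y i j ^ (-θ))) :=
          mul_le_mul_of_nonneg_left x3 hK0
      _ = _ := by ring
  rw [hcover]
  have hc0 : 0 ≤ K1 * 2 * K2 ^ P.card * V ^ (-σ1) := by
    have : 0 ≤ K1 := by linarith
    have : 0 ≤ K2 := by linarith
    positivity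
  calc ∑ j ∈ range J, ∑ i ∈ range (j + 1), ((box i j).card : ℝ)
      ≤ ∑ j ∈ range J, ∑ i ∈ range (j + 1), K1 * 2 * K2 ^ P.card * V ^ (-σ1) *
        (((2 : ℝ) ^ σ1) ^ (j - i) * ((2 : ℝ) ^ (i + j) * min 1 (zz Y i j ^ (-θ)))) :=
        sum_le_sum fun j _ => sum_le_sum fun i hi => hone j i hi
    _ = K1 * 2 * K2 ^ P.card * V ^ (-σ1) *
        ∑ j ∈ range J, ∑ i ∈ range (j + 1), (((2 : ℝ) ^ σ1) ^ (j - i) * ((2 : ℝ) ^ (i + j) *
          min 1 (zz Y i j ^ (-θ)))) := by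
        rw [mul_sum]
        exact sum_congr rfl fun j _ => by rw [mul_sum]
    _ ≤ K1 * 2 * K2 ^ P.card * V ^ (-σ1) * (D * Y ^ ((2 : ℝ) / 3)) :=
        mul_le_mul_of_nonneg_left (hdy Y hY J) hc0
    _ = _ := by ring

/-- the pairs with a given greatest common divisor -/
theorem fixed' {σ : ℝ} (hσ : 0 < σ) (hσ1 : σ < 1 / 3) : ∃ C1 C2 : ℝ, 1 ≤ C1 ∧ 1 ≤ C2 ∧
    ∀ (P : Finset ℕ) (Y W : ℝ), 1 ≤ Y → 1 ≤ W → ∀ E : Finset (ℕ × ℕ),
    (∀ p ∈ E, 0 < p.1 ∧ p.1 ≤ p.2 ∧ Nat.Coprime p.1 p.2 ∧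
      (radP P (p.1 * p.2 * (p.1 + p.2)) : ℝ) ≤ Y ∧
      ((p.1 + p.2 : ℕ) : ℝ) ≤ Y ^ (1 / 3 + 1 / 240 : ℝ) ∧ W * p.1 ≤ (psi3 P p : ℝ) * p.2) →
    (E.card : ℝ) ≤ C1 * C2 ^ P.card * (W ^ (-σ) * Y ^ ((2 : ℝ) / 3) + Y ^ (2 / 3 - 1 / 120 : ℝ)) := by
  classical
  obtain ⟨N1, N2, hN1, hN2, hn⟩ := neg_count
  obtain ⟨M1, M2, hM1, hM2, hm⟩ := main_tail σ hσ.le hσ1
  refine ⟨N1 + M1, max N2 M2, by linarith, le_trans hN2 (le_max_left _ _), ?_⟩
  intro P Y W hY hW E hE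
  have hY0 : 0 < Y := by linarith
  set E2 := E.filter (fun p => psi3 P p ≤ ⌊Y ^ (1 / 10 : ℝ)⌋₊ ∧ ⌊Y ^ (1 / 10 : ℝ)⌋₊ ^ 2 ≤ p.1)
    with hE2
  set E3 := E.filter (fun p => ¬ (psi3 P p ≤ ⌊Y ^ (1 / 10 : ℝ)⌋₊ ∧
    ⌊Y ^ (1 / 10 : ℝ)⌋₊ ^ 2 ≤ p.1)) with hE3
  have h3 : (E3.card : ℝ) ≤ N1 * N2 ^ P.card * Y ^ (2 / 3 - 1 / 120 : ℝ) := by
    refine hn P Y hY E3 ?_
    intro p hp
    obtain ⟨hpE, hp3⟩ := mem_filter.1 hp
    obtain ⟨a1, a2, a3, a4, a5, a6⟩ := hE p hpE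
    exact ⟨a1, by omega, a5, hp3⟩
  have h2 : (E2.card : ℝ) ≤ M1 * M2 ^ P.card * (W ^ (-σ) * Y ^ ((2 : ℝ) / 3)) := by
    have := hm P Y W hY (by linarith) ⌊Y ^ (1 / 10 : ℝ)⌋₊ E2 (by
      intro p hp
      obtain ⟨hpE, hp2, hp3⟩ := mem_filter.1 hp
      obtain ⟨a1, a2, a3, a4, a5, a6⟩ := hE p hpE
      exact ⟨a1, a2, a3, a4, hp2, hp3.trans a2, a6⟩)
    refine this.trans (le_of_eq ?_)
    ring
  have hcard : E.card = E2.card + E3.card := (card_filter_add_card_filter_not _).symm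
  have hR : 0 ≤ W ^ (-σ) * Y ^ ((2 : ℝ) / 3) := by positivity
  have hS : 0 ≤ Y ^ (2 / 3 - 1 / 120 : ℝ) := by positivity
  have hN2' : N2 ^ P.card ≤ max N2 M2 ^ P.card :=
    pow_le_pow_left₀ (by linarith) (le_max_left _ _) _
  have hM2' : M2 ^ P.card ≤ max N2 M2 ^ P.card :=
    pow_le_pow_left₀ (by linarith) (le_max_right _ _) _
  have hK0 : 0 ≤ max N2 M2 ^ P.card := le_trans (by positivity) hN2'
  calc (E.card : ℝ) = E2.card + E3.card := by exact_mod_cast hcard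
    _ ≤ M1 * M2 ^ P.card * (W ^ (-σ) * Y ^ ((2 : ℝ) / 3)) +
        N1 * N2 ^ P.card * Y ^ (2 / 3 - 1 / 120 : ℝ) := add_le_add h2 h3
    _ ≤ M1 * max N2 M2 ^ P.card * (W ^ (-σ) * Y ^ ((2 : ℝ) / 3)) +
        N1 * max N2 M2 ^ P.card * Y ^ (2 / 3 - 1 / 120 : ℝ) := by gcongr
    _ ≤ (N1 + M1) * max N2 M2 ^ P.card *
        (W ^ (-σ) * Y ^ ((2 : ℝ) / 3) + Y ^ (2 / 3 - 1 / 120 : ℝ)) := by
        have e1 : 0 ≤ M1 * max N2 M2 ^ P.card * Y ^ (2 / 3 - 1 / 120 : ℝ) := by positivity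
        have e2 : 0 ≤ N1 * max N2 M2 ^ P.card * (W ^ (-σ) * Y ^ ((2 : ℝ) / 3)) := by positivity
        linarith

end Pool.Agent.Y679.Jl
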