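import Pool.Agent.TH498.AR.Cls

/-! **The points of a residue class in a triangle** (helper679). -/

set_option autoImplicit false

namespace Pool.Agent.Y679.Jl

open Finset Filter Topology Pool.Agent.TH498.AR

/-- the number of the members of a class below `M` -/
def cc (Q s M : ℕ) : ℕ := ((range M).filter (fun b => b % Q = s % Q)).card

theorem cc_le {Q : ℕ} (hQ : 0 < Q) (s M : ℕ) : |(cc Q s M : ℝ) - (M : ℝ) / Q| ≤ 1 :=
  count_class hQ s M

theorem sum_class (Q s M : ℕ) :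
    ∑ b ∈ (range M).filter (fun b => b % Q = s % Q), (b : ℝ) =
      (M : ℝ) * cc Q s M - ∑ j ∈ range M, (cc Q s (j + 1) : ℝ) := by
  induction M with
  | zero => simp
  | succ n ih =>
    rw [sum_range_succ]
    have h1 : (range (n + 1)).filter (fun b => b % Q = s % Q) =
        if n % Q = s % Q then insert n ((range n).filter (fun b => b % Q = s % Q))
        else (range n).filter (fun b => b % Q = s % Q) := by
      rw [range_add_one, filter_insert]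
    have h2 : (cc Q s (n + 1) : ℝ) = cc Q s n + if n % Q = s % Q then 1 else 0 := by
      unfold cc
      rw [h1]
      split_ifs with h
      · rw [card_insert_of_notMem (by simp)]
        push_cast
        ring
      · simp
    have h3 : ∑ b ∈ (range (n + 1)).filter (fun b => b % Q = s % Q), (b : ℝ) =
        (∑ b ∈ (range n).filter (fun b => b % Q = s % Q), (b : ℝ)) +
          if n % Q = s % Q then (n : ℝ) else 0 := by
      rw [h1]
      split_ifs with h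
      · rw [sum_insert (by simp)]
        ring
      · simp
    rw [h3, ih, h2]
    push_cast
    split_ifs with h
    · ring
    · ring

theorem sum_class_le {Q : ℕ} (hQ : 0 < Q) (s M : ℕ) :
    |(∑ b ∈ (range M).filter (fun b => b % Q = s % Q), (b : ℝ)) - (M : ℝ) ^ 2 / (2 * Q)| ≤
      3 * (M : ℝ) := by
  have hQ0 : (0 : ℝ) < Q := by exact_mod_cast hQ
  have hQ1 : (1 : ℝ) ≤ Q := by exact_mod_cast hQ
  have hM0 : (0 : ℝ) ≤ M := Nat.cast_nonneg _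
  rw [sum_class]
  have h1 := abs_le.1 (cc_le hQ s M)
  have h2 : |(∑ j ∈ range M, (cc Q s (j + 1) : ℝ)) - ∑ j ∈ range M, ((j : ℝ) + 1) / Q| ≤ M := by
    rw [← sum_sub_distrib]
    refine (abs_sum_le_sum_abs _ _).trans ?_
    calc ∑ j ∈ range M, |(cc Q s (j + 1) : ℝ) - ((j : ℝ) + 1) / Q| ≤ ∑ _j ∈ range M, (1 : ℝ) := by
          refine sum_le_sum fun j _ => ?_
          have := cc_le hQ s (j + 1)
          push_cast at this
          exact this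
      _ = M := by simp
  have h3 : ∑ j ∈ range M, ((j : ℝ) + 1) / Q = (M : ℝ) * (M + 1) / (2 * Q) := by
    rw [← sum_div, sum_add_distrib]
    have h4 : ∑ i ∈ range M, (i : ℝ) = (M : ℝ) * (M - 1) / 2 := by
      have := Finset.sum_range_id_mul_two M
      have h5 : ((∑ i ∈ range M, i : ℕ) : ℝ) * 2 = M * ((M : ℝ) - 1) := by
        rcases Nat.eq_zero_or_pos M with h0 | h0
        · subst h0; simp
        · have : (((∑ i ∈ range M, i) * 2 : ℕ) : ℝ) = ((M * (M - 1) : ℕ) : ℝ) := by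
            exact_mod_cast this
          push_cast [Nat.cast_sub h0] at this
          push_cast
          linarith
      push_cast at h5
      linarith
    rw [h4]
    simp only [sum_const, card_range, nsmul_eq_mul, mul_one]
    field_simp
    ring
  rw [h3] at h2
  have h4 := abs_le.1 h2
  obtain ⟨S, hS⟩ : ∃ S : ℝ, S = ∑ j ∈ range M, (cc Q s (j + 1) : ℝ) := ⟨_, rfl⟩
  obtain ⟨c, hc⟩ : ∃ c : ℝ, c = (cc Q s M : ℝ) := ⟨_, rfl⟩
  rw [← hS] at h4 ⊢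
  rw [← hc] at h1 ⊢
  have e1 : (M : ℝ) * (M + 1) / (2 * Q) = (M : ℝ) ^ 2 / (2 * Q) + M / (2 * Q) := by
    field_simp
  have e2 : (M : ℝ) * (M / Q) = 2 * ((M : ℝ) ^ 2 / (2 * Q)) := by
    field_simp
  have e3 : (M : ℝ) / (2 * Q) ≤ M := by
    rw [div_le_iff₀ (by positivity)]
    nlinarith
  have e4 : 0 ≤ (M : ℝ) / (2 * Q) := by positivity
  have e5 : (M : ℝ) * c - M * (M / Q) ≤ M := by
    have := mul_le_mul_of_nonneg_left h1.2 hM0
    linarith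
  have e6 : -(M : ℝ) ≤ (M : ℝ) * c - M * (M / Q) := by
    have := mul_le_mul_of_nonneg_left h1.1 hM0
    linarith
  rw [abs_le]
  constructor <;> linarith

/-- the values of `a` for a given `b` -/
noncomputable def Aa (α β : ℝ) (Q r b : ℕ) : Finset ℕ :=
  ((range ⌈β * b⌉₊).filter (fun a => a % Q = r % Q)) \
    ((range ⌈α * b⌉₊).filter (fun a => a % Q = r % Q))

theorem mem_Aa {α β : ℝ} {Q r b a : ℕ} :
    a ∈ Aa α β Q r b ↔ α * b ≤ a ∧ (a : ℝ) < β * b ∧ a % Q = r % Q := by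
  unfold Aa
  rw [Finset.mem_sdiff, mem_filter, mem_filter, mem_range, mem_range, Nat.lt_ceil, Nat.lt_ceil]
  constructor
  · rintro ⟨⟨h1, h2⟩, h3⟩
    refine ⟨?_, h1, h2⟩
    by_contra h
    push Not at h
    exact h3 ⟨h, h2⟩
  · rintro ⟨h1, h2, h3⟩
    refine ⟨⟨h2, h3⟩, fun h => ?_⟩
    linarith [h.1]

theorem card_Aa {α β : ℝ} (hα : 0 ≤ α) (hαβ : α ≤ β) {Q : ℕ} (hQ : 0 < Q) (r b : ℕ) :
    |((Aa α β Q r b).card : ℝ) - (β - α) * b / Q| ≤ 3 := by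
  have hQ0 : (0 : ℝ) < Q := by exact_mod_cast hQ
  have hQ1 : (1 : ℝ) ≤ Q := by exact_mod_cast hQ
  have hb0 : (0 : ℝ) ≤ b := Nat.cast_nonneg _
  have hle : ⌈α * b⌉₊ ≤ ⌈β * b⌉₊ := Nat.ceil_le_ceil (mul_le_mul_of_nonneg_right hαβ hb0)
  have hsub : (range ⌈α * b⌉₊).filter (fun a => a % Q = r % Q) ⊆
      (range ⌈β * b⌉₊).filter (fun a => a % Q = r % Q) :=
    filter_subset_filter _ (range_subset_range.2 hle)
  have hc : ((Aa α β Q r b).card : ℝ) = (cc Q r ⌈β * b⌉₊ : ℝ) - cc Q r ⌈α * b⌉₊ := by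
    unfold Aa cc
    rw [card_sdiff_of_subset hsub, Nat.cast_sub (card_le_card hsub)]
  rw [hc]
  have h1 := abs_le.1 (cc_le hQ r ⌈β * b⌉₊)
  have h2 := abs_le.1 (cc_le hQ r ⌈α * b⌉₊)
  have c1 := Nat.le_ceil (β * b)
  have c2 := Nat.le_ceil (α * b)
  have c3 := (Nat.ceil_lt_add_one (by positivity : 0 ≤ α * b)).le
  have c4 := (Nat.ceil_lt_add_one (mul_nonneg (hα.trans hαβ) hb0 : 0 ≤ β * b)).le
  have d1 : (⌈β * b⌉₊ : ℝ) / Q - (⌈α * b⌉₊ : ℝ) / Q - (β - α) * b / Q =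
      ((⌈β * b⌉₊ : ℝ) - ⌈α * b⌉₊ - (β - α) * b) / Q := by ring
  have d2 : |((⌈β * b⌉₊ : ℝ) - ⌈α * b⌉₊ - (β - α) * b) / Q| ≤ 1 := by
    rw [abs_div, abs_of_pos hQ0, div_le_one hQ0]
    refine le_trans ?_ hQ1
    rw [abs_le]
    constructor <;> linarith
  rw [← d1] at d2
  have d3 := abs_le.1 d2
  rw [abs_le]
  constructor <;> linarith

/-- the triangle -/
def Tr (S : Set (ℕ × ℕ)) (α β y : ℝ) : Set (ℕ × ℕ) :=
  {p | p ∈ S ∧ 0 < p.2 ∧ (p.2 : ℝ) ≤ y ∧ α * p.2 ≤ p.1 ∧ (p.1 : ℝ) < β * p.2}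

/-- the residue class -/
def Rc (Q r s : ℕ) : Set (ℕ × ℕ) := {p | p.1 % Q = r % Q ∧ p.2 % Q = s % Q}

theorem Tr_fin (S : Set (ℕ × ℕ)) {α β : ℝ} (hβ : β ≤ 1) (y : ℝ) : (Tr S α β y).Finite := by
  refine Set.Finite.subset (Finset.finite_toSet
    (range (⌊y⌋₊ + 1) ×ˢ range (⌊y⌋₊ + 1))) ?_
  rintro p ⟨-, h1, h2, -, h4⟩
  have hb0 : (0 : ℝ) < p.2 := by exact_mod_cast h1
  have h5 : p.2 ≤ ⌊y⌋₊ := Nat.le_floor h2
  have h6 : (p.1 : ℝ) < p.2 := lt_of_lt_of_le h4 (by nlinarith)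
  have h7 : p.1 < p.2 := by exact_mod_cast h6
  rw [mem_coe, mem_product, mem_range, mem_range]
  omega

theorem Tr_class {α β : ℝ} (hα : 0 ≤ α) (hαβ : α ≤ β) (hβ : β ≤ 1) {Q : ℕ} (hQ : 0 < Q)
    (r s : ℕ) {y : ℝ} (hy : 1 ≤ y) :
    |((Tr (Rc Q r s) α β y).ncard : ℝ) - (β - α) * y ^ 2 / (2 * (Q : ℝ) ^ 2)| ≤ 20 * y := by
  classical
  have hQ0 : (0 : ℝ) < Q := by exact_mod_cast hQ
  have hQ1 : (1 : ℝ) ≤ Q := by exact_mod_cast hQ
  have hy0 : 0 ≤ y := by linarith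
  obtain ⟨M, hM⟩ : ∃ M : ℕ, M = ⌊y⌋₊ + 1 := ⟨_, rfl⟩
  have hM1 : y ≤ M := by rw [hM]; push_cast; exact (Nat.lt_floor_add_one y).le
  have hM2 : (M : ℝ) ≤ y + 1 := by rw [hM]; push_cast; linarith [Nat.floor_le hy0]
  have hM0 : (0 : ℝ) ≤ M := Nat.cast_nonneg _
  set B : Finset ℕ := (range M).filter (fun b => b % Q = s % Q) with hB
  set F : Finset (ℕ × ℕ) := B.biUnion (fun b => (Aa α β Q r b).image (fun a => (a, b))) with hF
  have hset : Tr (Rc Q r s) α β y = (F : Set (ℕ × ℕ)) := by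
    ext p
    rw [mem_coe, hF, mem_biUnion]
    constructor
    · rintro ⟨⟨h1, h2⟩, h3, h4, h5, h6⟩
      refine ⟨p.2, mem_filter.2 ⟨mem_range.2 ?_, h2⟩, mem_image.2 ⟨p.1, mem_Aa.2 ⟨h5, h6, h1⟩, rfl⟩⟩
      rw [hM]
      have := Nat.le_floor h4
      omega
    · rintro ⟨b, hb, hp⟩
      obtain ⟨a, ha, rfl⟩ := mem_image.1 hp
      obtain ⟨b1, b2⟩ := mem_filter.1 hb
      obtain ⟨a1, a2, a3⟩ := mem_Aa.1 ha
      rw [mem_range, hM] at b1
      refine ⟨⟨a3, b2⟩, ?_, ?_, a1, a2⟩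
      · rcases Nat.eq_zero_or_pos b with h | h
        · subst h
          simp only [Nat.cast_zero, mul_zero] at a1 a2
          exact absurd a2 (not_lt.2 a1)
        · exact h
      · exact (Nat.le_floor_iff hy0).1 (by omega)
  have hcard : ((Tr (Rc Q r s) α β y).ncard : ℝ) = ∑ b ∈ B, ((Aa α β Q r b).card : ℝ) := by
    rw [hset, Set.ncard_coe_finset, hF, card_biUnion]
    · push_cast
      refine sum_congr rfl fun k _ => ?_
      rw [card_image_of_injective]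
      intro b b' h
      simpa using h
    · intro k _ l _ hkl
      rw [Function.onFun, disjoint_left]
      intro p hp hp'
      obtain ⟨b, _, rfl⟩ := mem_image.1 hp
      obtain ⟨b', _, h⟩ := mem_image.1 hp'
      simp only [Prod.mk.injEq] at h
      exact hkl h.2.symm
  have hBc : (B.card : ℝ) ≤ M := by
    have : B.card ≤ M := by
      rw [hB]
      exact (card_filter_le _ _).trans (card_range M).le
    exact_mod_cast this
  have e1 : |((Tr (Rc Q r s) α β y).ncard : ℝ) - (β - α) / Q * ∑ b ∈ B, (b : ℝ)| ≤ 3 * M := by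
    rw [hcard, mul_sum, ← sum_sub_distrib]
    refine (abs_sum_le_sum_abs _ _).trans ?_
    calc ∑ b ∈ B, |((Aa α β Q r b).card : ℝ) - (β - α) / Q * b| ≤ ∑ _b ∈ B, (3 : ℝ) := by
          refine sum_le_sum fun b _ => ?_
          have := card_Aa hα hαβ hQ r b
          have e : (β - α) / Q * b = (β - α) * b / Q := by ring
          rw [e]
          exact this
      _ = B.card * 3 := by rw [sum_const, nsmul_eq_mul]
      _ ≤ 3 * M := by linarith
  have e2 := sum_class_le hQ s M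
  rw [← hB] at e2
  obtain ⟨S, hS⟩ : ∃ S : ℝ, S = ∑ b ∈ B, (b : ℝ) := ⟨_, rfl⟩
  obtain ⟨T, hT⟩ : ∃ T : ℝ, T = ((Tr (Rc Q r s) α β y).ncard : ℝ) := ⟨_, rfl⟩
  obtain ⟨γ, hγ⟩ : ∃ γ : ℝ, γ = (β - α) / Q := ⟨_, rfl⟩
  rw [← hS] at e1 e2
  rw [← hT, ← hγ] at e1
  rw [← hT]
  have hγ0 : 0 ≤ γ := by rw [hγ]; exact div_nonneg (by linarith) hQ0.le
  have hγ1 : γ ≤ 1 := by
    rw [hγ, div_le_one hQ0]
    linarith
  have e3 : T - (β - α) * y ^ 2 / (2 * (Q : ℝ) ^ 2) = (T - γ * S) + γ * (S - (M : ℝ) ^ 2 / (2 * Q)) +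
      γ * (((M : ℝ) ^ 2 - y ^ 2) / (2 * Q)) := by
    rw [hγ]
    field_simp
    ring
  rw [e3]
  have f1 : |γ * (S - (M : ℝ) ^ 2 / (2 * Q))| ≤ 3 * (M : ℝ) := by
    rw [abs_mul, abs_of_nonneg hγ0]
    calc γ * |S - (M : ℝ) ^ 2 / (2 * Q)| ≤ 1 * (3 * M) :=
          mul_le_mul hγ1 e2 (abs_nonneg _) (by norm_num)
      _ = _ := by ring
  have f2 : |γ * (((M : ℝ) ^ 2 - y ^ 2) / (2 * Q))| ≤ 3 * y := by
    have g1 : 0 ≤ (M : ℝ) ^ 2 - y ^ 2 := by nlinarith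
    have g2 : (M : ℝ) ^ 2 - y ^ 2 ≤ 3 * y := by nlinarith
    have g3 : ((M : ℝ) ^ 2 - y ^ 2) / (2 * Q) ≤ (M : ℝ) ^ 2 - y ^ 2 := by
      rw [div_le_iff₀ (by positivity)]
      nlinarith
    have g4 : 0 ≤ ((M : ℝ) ^ 2 - y ^ 2) / (2 * Q) := by positivity
    rw [abs_of_nonneg (mul_nonneg hγ0 g4)]
    nlinarith
  have f3 := abs_add_le ((T - γ * S) + γ * (S - (M : ℝ) ^ 2 / (2 * Q)))
    (γ * (((M : ℝ) ^ 2 - y ^ 2) / (2 * Q)))
  have f4 := abs_add_le (T - γ * S) (γ * (S - (M : ℝ) ^ 2 / (2 * Q)))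
  linarith

end Pool.Agent.Y679.Jl
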